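import Mathlib
import Pool.Agent.Y757.LS.D

/-!
LD-LOW, part A: a convolution inequality for weighted integrals, and the strip Poisson inequality
localised (helper448).
-/

set_option autoImplicit false

namespace Pool.Agent.Y448.LD

open MeasureTheory Topology Set
open scoped ENNReal

/-- weighted integrals of a convolution inequality -/
theorem conv {V f g h K : ℝ → ℝ≥0∞} (hV : Measurable V) (hf : Measurable f) (hg : Measurable g)
    (hh : Measurable h) (hK : Measurable K) {w : ℝ} {G0 G1 H : Set ℝ} (hG0 : MeasurableSet G0)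
    (hG1 : MeasurableSet G1) (hH : MeasurableSet H)
    (h01 : ∀ x ∈ G0, ∀ y ∈ Icc (-w) w, x - y ∈ G1) (h1H : ∀ x ∈ G1, ∀ y ∈ Icc (-w) w, x + y ∈ H)
    {C : ℝ≥0∞} (hC1 : ∀ x ∈ G1, ∀ y ∈ Icc (-w) w, V x ≤ C * V (x + y))
    (hC2 : ∀ x ∈ G1, ∀ y ∈ Icc (-w) w, V (x + y) ≤ C * V x)
    (hmain : ∀ x ∈ G1, ∫⁻ y in Icc (-w) w, K y * f (x + y) ≤
      h x + ∫⁻ y in Icc (-w) w, K y * g (x + y)) :
    (∫⁻ y in Icc (-w) w, K y) * ∫⁻ x in G0, V x * f x ≤
      C * (∫⁻ x in G1, V x * h x) +
        C * C * ((∫⁻ y in Icc (-w) w, K y) * ∫⁻ x in H, V x * g x) := by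
  have hadd : Measurable (fun p : ℝ × ℝ => p.1 + p.2) := measurable_fst.add measurable_snd
  -- translation
  have tr1 : ∀ y ∈ Icc (-w) w, ∫⁻ x in G0, V x * f x ≤ ∫⁻ x in G1, V (x + y) * f (x + y) := by
    intro y hy
    rw [← lintegral_indicator hG0, ← lintegral_indicator hG1,
      ← lintegral_add_right_eq_self (fun x => G0.indicator (fun x => V x * f x) x) y]
    refine lintegral_mono fun x => ?_
    by_cases hx : x + y ∈ G0
    · have h1 := h01 _ hx y hy
      rw [add_sub_cancel_right] at h1
      rw [indicator_of_mem hx, indicator_of_mem h1]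
    · rw [indicator_of_notMem hx]
      exact zero_le
  have tr2 : ∀ y ∈ Icc (-w) w, ∫⁻ x in G1, V (x + y) * g (x + y) ≤ ∫⁻ x in H, V x * g x := by
    intro y hy
    rw [← lintegral_indicator hH, ← lintegral_indicator hG1,
      ← lintegral_add_right_eq_self (fun x => H.indicator (fun x => V x * g x) x) y]
    refine lintegral_mono fun x => ?_
    by_cases hx : x ∈ G1
    · rw [indicator_of_mem hx, indicator_of_mem (h1H x hx y hy)]
    · rw [indicator_of_notMem hx]
      exact zero_le
  calc (∫⁻ y in Icc (-w) w, K y) * ∫⁻ x in G0, V x * f x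
      = ∫⁻ y in Icc (-w) w, K y * ∫⁻ x in G0, V x * f x := (lintegral_mul_const _ hK).symm
    _ ≤ ∫⁻ y in Icc (-w) w, ∫⁻ x in G1, C * V x * (K y * f (x + y)) := by
        refine setLIntegral_mono' measurableSet_Icc fun y hy => ?_
        calc K y * ∫⁻ x in G0, V x * f x ≤ K y * ∫⁻ x in G1, V (x + y) * f (x + y) :=
              mul_le_mul_right (tr1 y hy) _
          _ = ∫⁻ x in G1, K y * (V (x + y) * f (x + y)) := by
              rw [lintegral_const_mul]
              exact (hV.comp (measurable_add_const y)).mul (hf.comp (measurable_add_const y))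
          _ ≤ ∫⁻ x in G1, C * V x * (K y * f (x + y)) := by
              refine setLIntegral_mono' hG1 fun x hx => ?_
              calc K y * (V (x + y) * f (x + y)) = V (x + y) * (K y * f (x + y)) := by ring
                _ ≤ C * V x * (K y * f (x + y)) := by
                  gcongr
                  exact hC2 x hx y hy
    _ = ∫⁻ x in G1, ∫⁻ y in Icc (-w) w, C * V x * (K y * f (x + y)) := by
        refine lintegral_lintegral_swap ?_
        refine Measurable.aemeasurable ?_
        exact (((hV.comp measurable_snd).const_mul C).mul ((hK.comp measurable_fst).mul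
          (hf.comp (measurable_snd.add measurable_fst))))
    _ = ∫⁻ x in G1, C * V x * ∫⁻ y in Icc (-w) w, K y * f (x + y) := by
        refine lintegral_congr fun x => ?_
        rw [lintegral_const_mul]
        exact hK.mul (hf.comp (measurable_const_add x))
    _ ≤ ∫⁻ x in G1, C * V x * (h x + ∫⁻ y in Icc (-w) w, K y * g (x + y)) := by
        refine setLIntegral_mono' hG1 fun x hx => ?_
        gcongr
        exact hmain x hx
    _ = ∫⁻ x in G1, (C * (V x * h x) + C * ∫⁻ y in Icc (-w) w, V x * (K y * g (x + y))) := by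
        refine lintegral_congr fun x => ?_
        have hm : Measurable (fun y => K y * g (x + y)) := hK.mul (hg.comp (measurable_const_add x))
        rw [lintegral_const_mul (V x) hm]
        ring
    _ = C * (∫⁻ x in G1, V x * h x) +
        C * ∫⁻ x in G1, ∫⁻ y in Icc (-w) w, V x * (K y * g (x + y)) := by
        have m1 : Measurable (fun x => V x * h x) := hV.mul hh
        have m2 : Measurable (fun x => C * (V x * h x)) := m1.const_mul C
        have m3 : Measurable (fun p : ℝ × ℝ => V p.1 * (K p.2 * g (p.1 + p.2))) :=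
          (hV.comp measurable_fst).mul ((hK.comp measurable_snd).mul (hg.comp hadd))
        have m4 : Measurable (fun x => ∫⁻ y in Icc (-w) w, V x * (K y * g (x + y))) :=
          m3.lintegral_prod_right'
        rw [lintegral_add_left m2, lintegral_const_mul C m1, lintegral_const_mul C m4]
    _ = C * (∫⁻ x in G1, V x * h x) +
        C * ∫⁻ y in Icc (-w) w, ∫⁻ x in G1, V x * (K y * g (x + y)) := by
        congr 2
        refine lintegral_lintegral_swap ?_
        refine Measurable.aemeasurable ?_
        exact (hV.comp measurable_fst).mul ((hK.comp measurable_snd).mul (hg.comp hadd))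
    _ ≤ C * (∫⁻ x in G1, V x * h x) +
        C * ∫⁻ y in Icc (-w) w, K y * (C * ∫⁻ x in H, V x * g x) := by
        refine add_le_add le_rfl (mul_le_mul_right ?_ _)
        refine setLIntegral_mono' measurableSet_Icc fun y hy => ?_
        calc ∫⁻ x in G1, V x * (K y * g (x + y))
            ≤ ∫⁻ x in G1, (K y * C) * (V (x + y) * g (x + y)) := by
              refine setLIntegral_mono' hG1 fun x hx => ?_
              calc V x * (K y * g (x + y)) ≤ (C * V (x + y)) * (K y * g (x + y)) := by
                    gcongr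
                    exact hC1 x hx y hy
                _ = (K y * C) * (V (x + y) * g (x + y)) := by ring
          _ = (K y * C) * ∫⁻ x in G1, V (x + y) * g (x + y) := by
              rw [lintegral_const_mul]
              exact (hV.comp (measurable_add_const y)).mul (hg.comp (measurable_add_const y))
          _ ≤ (K y * C) * ∫⁻ x in H, V x * g x := mul_le_mul_right (tr2 y hy) _
          _ = K y * (C * ∫⁻ x in H, V x * g x) := by ring
    _ = _ := by
        rw [lintegral_mul_const _ hK]
        ring

open Pool.Agent.Y757.LS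

/-- the tail of the kernel -/
theorem ker_tail {d w M y : ℝ} (hd : 0 < d) (hM : 0 ≤ M) (hy : w ≤ |y|) :
    (M + 4 * |y|) * ker d y ≤ 4 * (M + 16 * d) * Real.exp (-(w / (2 * d))) * ker (2 * d) y := by
  have h0 := abs_nonneg y
  have h1 := ker_le_exp hd y
  have hpi := Real.pi_gt_three
  -- lower bound for the second kernel
  have h2 : 1 / (4 * d) * Real.exp (-(Real.pi / (4 * d)) * |y|) ≤ ker (2 * d) y := by
    unfold ker
    have e1 : Real.cosh (Real.pi * y / (2 * (2 * d))) ≤ Real.exp (Real.pi / (4 * d) * |y|) := by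
      have e : Real.cosh (Real.pi * y / (2 * (2 * d))) = Real.cosh (Real.pi / (4 * d) * |y|) := by
        rw [← Real.cosh_abs (Real.pi * y / (2 * (2 * d)))]
        congr 1
        rw [abs_div, abs_mul, abs_of_pos Real.pi_pos, abs_of_pos (by linarith : 0 < 2 * (2 * d))]
        ring
      rw [e, Real.cosh_eq]
      have h3 : Real.exp (-(Real.pi / (4 * d) * |y|)) ≤ Real.exp (Real.pi / (4 * d) * |y|) := by
        apply Real.exp_le_exp.2
        have : 0 ≤ Real.pi / (4 * d) * |y| := by positivity
        linarith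
      linarith
    have h4 := Real.cosh_pos (Real.pi * y / (2 * (2 * d)))
    have h5 : Real.exp (-(Real.pi / (4 * d)) * |y|) = (Real.exp (Real.pi / (4 * d) * |y|))⁻¹ := by
      rw [← Real.exp_neg]; congr 1; ring
    rw [h5]
    calc 1 / (4 * d) * (Real.exp (Real.pi / (4 * d) * |y|))⁻¹ =
        1 / (2 * (2 * d) * Real.exp (Real.pi / (4 * d) * |y|)) := by field_simp; ring
      _ ≤ _ := by
        apply one_div_le_one_div_of_le (by positivity)
        gcongr
  -- the exponent
  have h3 : Real.exp (-(Real.pi / (2 * d)) * |y|) = Real.exp (-(Real.pi / (4 * d)) * |y|) *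
      Real.exp (-(Real.pi / (4 * d)) * |y|) := by
    rw [← Real.exp_add]; congr 1; field_simp; ring
  have h4 : Real.exp (-(Real.pi / (4 * d)) * |y|) ≤
      Real.exp (-(w / (2 * d))) * Real.exp (-(|y| / (4 * d))) := by
    rw [← Real.exp_add]
    apply Real.exp_le_exp.2
    have e1 : w / (2 * d) ≤ |y| / (2 * d) := by gcongr
    have e2 : 3 * (|y| / (4 * d)) ≤ Real.pi / (4 * d) * |y| := by
      have : 0 ≤ |y| / (4 * d) := by positivity
      calc 3 * (|y| / (4 * d)) ≤ Real.pi * (|y| / (4 * d)) := by gcongr
        _ = _ := by ring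
    have e3 : |y| / (2 * d) = 2 * (|y| / (4 * d)) := by field_simp; ring
    linarith
  have h5 : (M + 4 * |y|) * Real.exp (-(|y| / (4 * d))) ≤ M + 16 * d := by
    have e1 : 4 * |y| = 16 * d * (|y| / (4 * d)) := by field_simp; ring
    have e2 : Real.exp (-(|y| / (4 * d))) ≤ 1 := by
      rw [Real.exp_le_one_iff]
      have : 0 ≤ |y| / (4 * d) := by positivity
      linarith
    have e3 : |y| / (4 * d) * Real.exp (-(|y| / (4 * d))) ≤ 1 := by
      rw [Real.exp_neg, ← div_eq_mul_inv, div_le_one (Real.exp_pos _)]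
      have := Real.add_one_le_exp (|y| / (4 * d))
      linarith
    rw [e1]
    calc (M + 16 * d * (|y| / (4 * d))) * Real.exp (-(|y| / (4 * d))) =
        M * Real.exp (-(|y| / (4 * d))) + 16 * d * (|y| / (4 * d) * Real.exp (-(|y| / (4 * d)))) := by
          ring
      _ ≤ M * 1 + 16 * d * 1 := by gcongr
      _ = M + 16 * d := by ring
  have hE := Real.exp_pos (-(Real.pi / (4 * d)) * |y|)
  calc (M + 4 * |y|) * ker d y ≤ (M + 4 * |y|) * (1 / d * Real.exp (-(Real.pi / (2 * d)) * |y|)) := by
        gcongr
    _ = 4 * ((M + 4 * |y|) * Real.exp (-(Real.pi / (4 * d)) * |y|)) *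
        (1 / (4 * d) * Real.exp (-(Real.pi / (4 * d)) * |y|)) := by
        rw [h3]; field_simp
    _ ≤ 4 * ((M + 4 * |y|) * (Real.exp (-(w / (2 * d))) * Real.exp (-(|y| / (4 * d))))) *
        ker (2 * d) y := by gcongr
    _ = 4 * (((M + 4 * |y|) * Real.exp (-(|y| / (4 * d)))) * Real.exp (-(w / (2 * d)))) *
        ker (2 * d) y := by ring
    _ ≤ 4 * ((M + 16 * d) * Real.exp (-(w / (2 * d)))) * ker (2 * d) y := by
        have := (ker_pos (by linarith : 0 < 2 * d) y).le
        gcongr
    _ = _ := by ring

/-- integrals over the tail -/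
theorem tail_int {d w M : ℝ} (hd : 0 < d) (hM : 0 ≤ M) {F : ℝ → ℝ} (hF : Integrable F)
    (hb : ∀ y, w < |y| → F y ≤ (M + 4 * |y|) * ker d y) :
    ∫ y in (Icc (-w) w)ᶜ, F y ≤ 4 * (M + 16 * d) * Real.exp (-(w / (2 * d))) := by
  have h2d : 0 < 2 * d := by linarith
  have hk := ker_integrable h2d
  calc ∫ y in (Icc (-w) w)ᶜ, F y
      ≤ ∫ y in (Icc (-w) w)ᶜ, 4 * (M + 16 * d) * Real.exp (-(w / (2 * d))) * ker (2 * d) y := by
        refine setIntegral_mono_on hF.integrableOn (hk.const_mul _).integrableOn
          measurableSet_Icc.compl fun y hy => ?_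
        have hy' : w < |y| := by
          by_contra hc
          push Not at hc
          exact hy (abs_le.1 hc)
        exact (hb y hy').trans (ker_tail hd hM hy'.le)
    _ ≤ ∫ y, 4 * (M + 16 * d) * Real.exp (-(w / (2 * d))) * ker (2 * d) y := by
        refine setIntegral_le_integral (hk.const_mul _) (Filter.Eventually.of_forall fun y => ?_)
        have := ker_pos h2d y
        positivity
    _ = _ := by
        rw [integral_const_mul, integral_ker h2d, mul_one]

/-- the mass of the kernel near the origin -/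
theorem ker_mass {d w : ℝ} (hd : 0 < d) (h : 4 * (1 + 16 * d) * Real.exp (-(w / (2 * d))) ≤ 1 / 2) :
    1 / 2 ≤ ∫ y in Icc (-w) w, ker d y ∧ ∫ y in Icc (-w) w, ker d y ≤ 1 := by
  have hk := ker_integrable hd
  have h1 := integral_add_compl (μ := volume) (f := ker d) (s := Icc (-w) w) measurableSet_Icc hk
  rw [integral_ker hd] at h1
  have h2 := tail_int (w := w) hd zero_le_one hk (fun y _ => by
    have h3 := ker_pos hd y
    have h4 := abs_nonneg y
    nlinarith)
  have h5 : 0 ≤ ∫ y in (Icc (-w) w)ᶜ, ker d y := setIntegral_nonneg measurableSet_Icc.compl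
    fun y _ => (ker_pos hd y).le
  constructor <;> linarith

/-- the localised Poisson inequality -/
theorem pois : ∃ C0 : ℝ, 0 ≤ C0 ∧ ∀ (N x d w : ℝ) (p : ℝ → ℝ), 0 ≤ N → 0 < d → d ≤ 1 → 0 ≤ w →
    Continuous p → (∀ y ∈ Icc (-w) w, |p (x + y) - p x| ≤ 2) →
    4 * (C0 + 4 * Real.log (1 + |x|) + |p x| + 16 * d) * Real.exp (-(w / (2 * d))) ≤ 1 →
    ∫⁻ y in Icc (-w) w, ENNReal.ofReal (ker d y) *
        ENNReal.ofReal (max (p (x + y) - gN N 0 (x + y)) 0) ≤
      ENNReal.ofReal (2 * |gN N d x - p x| + 6) + ∫⁻ y in Icc (-w) w, ENNReal.ofReal (ker d y) *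
        ENNReal.ofReal (max (gN N 0 (x + y) - p (x + y)) 0 + |gN N (2 * d) (x + y) - p (x + y)|) := by
  obtain ⟨C0, hC0, hup⟩ := Pool.Agent.Y757.LS.upper
  refine ⟨C0, hC0, fun N x d w p hN hd hd1 hw hp hpw htail => ?_⟩
  have hk := ker_integrable hd
  have hkc := ker_continuous hd
  have hx1 : 0 ≤ Real.log (1 + |x|) := Real.log_nonneg (by linarith [abs_nonneg x])
  obtain ⟨B, hB0, hB⟩ := gN_abs_le hN
  have m1 : ∀ s, Measurable (fun y : ℝ => gN N s (x + y)) := fun s =>
    gN_meas_comp N measurable_const (measurable_const_add x)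
  have i1 : ∀ s, -(3/2) ≤ s → s ≤ 10 → Integrable (fun y => gN N s (x + y) * ker d y) :=
    fun s h1 h2 => ker_integrable_of_le hd (m1 s).aestronglyMeasurable fun y => hB s x y h1 h2
  have mp : Measurable (fun y : ℝ => p (x + y)) := by
    have : Continuous (fun y : ℝ => p (x + y)) := by fun_prop
    exact this.measurable
  have i2 : IntegrableOn (fun y => p (x + y) * ker d y) (Icc (-w) w) := by
    have : Continuous (fun y : ℝ => p (x + y) * ker d y) := by fun_prop
    exact this.continuousOn.integrableOn_compact isCompact_Icc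
  have hpos := fun y => (ker_pos hd y).le
  -- integrability of the parts
  have i3 : ∀ s, -(3/2) ≤ s → s ≤ 10 →
      IntegrableOn (fun y => |gN N s (x + y) - p (x + y)| * ker d y) (Icc (-w) w) := by
    intro s h1 h2
    have h3 := ((i1 s h1 h2).integrableOn.sub i2).norm
    refine h3.congr (Filter.Eventually.of_forall fun y => ?_)
    simp only [Pi.sub_apply]
    rw [← sub_mul, norm_mul, Real.norm_eq_abs, Real.norm_of_nonneg (hpos y)]
  have i4 : IntegrableOn (fun y => max (p (x + y) - gN N 0 (x + y)) 0 * ker d y) (Icc (-w) w) := by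
    refine (i3 0 (by norm_num) (by norm_num)).mono' ?_ (Filter.Eventually.of_forall fun y => ?_)
    · exact (((mp.sub (m1 0)).max measurable_const).mul hkc.measurable).aestronglyMeasurable
    · rw [Real.norm_of_nonneg (mul_nonneg (le_max_right _ _) (hpos y))]
      refine mul_le_mul_of_nonneg_right ?_ (hpos y)
      rw [abs_sub_comm]
      exact max_le (le_abs_self _) (abs_nonneg _)
  have i5 : IntegrableOn (fun y => (max (gN N 0 (x + y) - p (x + y)) 0 +
      |gN N (2 * d) (x + y) - p (x + y)|) * ker d y) (Icc (-w) w) := by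
    have h1 : IntegrableOn (fun y => max (gN N 0 (x + y) - p (x + y)) 0 * ker d y) (Icc (-w) w) := by
      refine (i3 0 (by norm_num) (by norm_num)).mono' ?_ (Filter.Eventually.of_forall fun y => ?_)
      · exact ((((m1 0).sub mp).max measurable_const).mul hkc.measurable).aestronglyMeasurable
      · rw [Real.norm_of_nonneg (mul_nonneg (le_max_right _ _) (hpos y))]
        refine mul_le_mul_of_nonneg_right ?_ (hpos y)
        exact max_le (le_abs_self _) (abs_nonneg _)
    refine (h1.add (i3 (2 * d) (by linarith) (by linarith))).congr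
      (Filter.Eventually.of_forall fun y => ?_)
    simp only [Pi.add_apply]
    ring
  -- the Poisson inequality
  have hP := poisson_gN (N := N) (s := d) (t := x) (h := d) hN hd (by linarith) (by linarith)
  rw [sub_self, show d + d = 2 * d by ring] at hP
  set F : ℝ → ℝ := fun y => (gN N 0 (x + y) + gN N (2 * d) (x + y)) / 2 * ker d y with hF
  have iF : Integrable F := by
    refine (((i1 0 (by norm_num) (by norm_num)).add (i1 (2 * d) (by linarith) (by linarith))).div_const
      2).congr (Filter.Eventually.of_forall fun y => ?_)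
    simp only [hF, Pi.add_apply]
    ring
  have hsplit := integral_add_compl (μ := volume) (s := Icc (-w) w) measurableSet_Icc iF
  have hksplit := integral_add_compl (μ := volume) (s := Icc (-w) w) measurableSet_Icc hk
  rw [integral_ker hd] at hksplit
  -- the tail
  have hT : ∫ y in (Icc (-w) w)ᶜ, (F y + |p x| * ker d y) ≤ 1 := by
    refine (tail_int (M := C0 + 4 * Real.log (1 + |x|) + |p x|) hd (by positivity)
      (iF.add (hk.const_mul _)) fun y _ => ?_).trans htail
    have hl : Real.log (1 + |x + y|) ≤ Real.log (1 + |x|) + |y| := by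
      have e1 : 1 + |x + y| ≤ (1 + |x|) * (1 + |y|) := by
        have := abs_add_le x y
        nlinarith [abs_nonneg x, abs_nonneg y, mul_nonneg (abs_nonneg x) (abs_nonneg y)]
      have e2 := Real.log_le_log (by positivity) e1
      rw [Real.log_mul (by positivity) (by positivity)] at e2
      have e3 := log_one_add_le |y| (abs_nonneg _)
      linarith
    have a1 := (hup 0 (x + y) (by norm_num) (by norm_num)).2 N hN
    have a2 := (hup (2 * d) (x + y) (by linarith) (by linarith)).2 N hN
    have a3 : (gN N 0 (x + y) + gN N (2 * d) (x + y)) / 2 ≤ C0 + 4 * Real.log (1 + |x|) + 4 * |y| := by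
      linarith
    simp only [hF]
    have := hpos y
    calc (gN N 0 (x + y) + gN N (2 * d) (x + y)) / 2 * ker d y + |p x| * ker d y
        ≤ (C0 + 4 * Real.log (1 + |x|) + 4 * |y|) * ker d y + |p x| * ker d y := by gcongr
      _ = _ := by ring
  rw [integral_add iF.integrableOn (hk.const_mul _).integrableOn, integral_const_mul] at hT
  -- the main part
  have hM : ∫ y in Icc (-w) w, F y ≤
      1 / 2 * (∫ y in Icc (-w) w, (max (gN N 0 (x + y) - p (x + y)) 0 +
        |gN N (2 * d) (x + y) - p (x + y)|) * ker d y) -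
      1 / 2 * (∫ y in Icc (-w) w, max (p (x + y) - gN N 0 (x + y)) 0 * ker d y) +
      (p x + 2) * ∫ y in Icc (-w) w, ker d y := by
    have j1 : IntegrableOn (fun y => 1 / 2 * ((max (gN N 0 (x + y) - p (x + y)) 0 +
        |gN N (2 * d) (x + y) - p (x + y)|) * ker d y) -
        1 / 2 * (max (p (x + y) - gN N 0 (x + y)) 0 * ker d y)) (Icc (-w) w) :=
      (i5.const_mul _).sub (i4.const_mul _)
    have j2 : IntegrableOn (fun y => (p x + 2) * ker d y) (Icc (-w) w) :=
      (hk.const_mul _).integrableOn
    rw [← integral_const_mul, ← integral_const_mul, ← integral_const_mul,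
      ← integral_sub (i5.const_mul _) (i4.const_mul _), ← integral_add j1 j2]
    refine setIntegral_mono_on iF.integrableOn (j1.add j2) measurableSet_Icc fun y hy => ?_
    have h1 := abs_le.1 (hpw y hy)
    have h2 := hpos y
    have h3 : max (gN N 0 (x + y) - p (x + y)) 0 - max (p (x + y) - gN N 0 (x + y)) 0 =
        gN N 0 (x + y) - p (x + y) := by
      rcases le_total (gN N 0 (x + y)) (p (x + y)) with h | h
      · rw [max_eq_right (by linarith), max_eq_left (by linarith)]; ring
      · rw [max_eq_left (by linarith), max_eq_right (by linarith)]; ring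
    have h4 := le_abs_self (gN N (2 * d) (x + y) - p (x + y))
    simp only [hF]
    have h5 : (gN N 0 (x + y) + gN N (2 * d) (x + y)) / 2 ≤
        1 / 2 * (max (gN N 0 (x + y) - p (x + y)) 0 + |gN N (2 * d) (x + y) - p (x + y)|) -
        1 / 2 * max (p (x + y) - gN N 0 (x + y)) 0 + (p x + 2) := by linarith
    calc _ ≤ (1 / 2 * (max (gN N 0 (x + y) - p (x + y)) 0 + |gN N (2 * d) (x + y) - p (x + y)|) -
        1 / 2 * max (p (x + y) - gN N 0 (x + y)) 0 + (p x + 2)) * ker d y := by gcongr
      _ = _ := by ring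
  set m0 := ∫ y in Icc (-w) w, ker d y with hm0
  have hm1 : 0 ≤ ∫ y in (Icc (-w) w)ᶜ, ker d y := setIntegral_nonneg measurableSet_Icc.compl
    fun y _ => hpos y
  have hreal : ∫ y in Icc (-w) w, max (p (x + y) - gN N 0 (x + y)) 0 * ker d y ≤
      (2 * |gN N d x - p x| + 6) + ∫ y in Icc (-w) w, (max (gN N 0 (x + y) - p (x + y)) 0 +
        |gN N (2 * d) (x + y) - p (x + y)|) * ker d y := by
    have h1 : (p x + 2) * m0 ≤ p x + 2 + |p x| * ∫ y in (Icc (-w) w)ᶜ, ker d y := by
      have e : m0 = 1 - ∫ y in (Icc (-w) w)ᶜ, ker d y := by linarith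
      rw [e]
      have := neg_abs_le (p x)
      nlinarith
    have h2 := neg_abs_le (gN N d x - p x)
    linarith
  -- conversion
  have hc1 : ∫⁻ y in Icc (-w) w, ENNReal.ofReal (ker d y) *
      ENNReal.ofReal (max (p (x + y) - gN N 0 (x + y)) 0) =
      ENNReal.ofReal (∫ y in Icc (-w) w, max (p (x + y) - gN N 0 (x + y)) 0 * ker d y) := by
    rw [ofReal_integral_eq_lintegral_ofReal i4
      (Filter.Eventually.of_forall fun y => mul_nonneg (le_max_right _ _) (hpos y))]
    refine lintegral_congr fun y => ?_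
    rw [mul_comm, ENNReal.ofReal_mul (le_max_right _ _)]
  have hc2 : ∫⁻ y in Icc (-w) w, ENNReal.ofReal (ker d y) *
      ENNReal.ofReal (max (gN N 0 (x + y) - p (x + y)) 0 + |gN N (2 * d) (x + y) - p (x + y)|) =
      ENNReal.ofReal (∫ y in Icc (-w) w, (max (gN N 0 (x + y) - p (x + y)) 0 +
        |gN N (2 * d) (x + y) - p (x + y)|) * ker d y) := by
    have hnn : ∀ y, 0 ≤ max (gN N 0 (x + y) - p (x + y)) 0 + |gN N (2 * d) (x + y) - p (x + y)| :=
      fun y => add_nonneg (le_max_right _ _) (abs_nonneg _)
    rw [ofReal_integral_eq_lintegral_ofReal i5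
      (Filter.Eventually.of_forall fun y => mul_nonneg (hnn y) (hpos y))]
    refine lintegral_congr fun y => ?_
    rw [mul_comm, ENNReal.ofReal_mul (hnn y)]
  rw [hc1, hc2, ← ENNReal.ofReal_add (by positivity) (integral_nonneg fun y =>
    mul_nonneg (add_nonneg (le_max_right _ _) (abs_nonneg _)) (hpos y))]
  exact ENNReal.ofReal_le_ofReal hreal

end Pool.Agent.Y448.LD
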