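import Mathlib
import Pool.Agent.Y745.LD.DefsB
import Pool.Agent.Y448.LD.LowA

/-!
LD-LOW, part B: pointwise comparisons and the size of the weight on small sets (helper448).
-/

set_option autoImplicit false

namespace Pool.Agent.Y448.LD

open MeasureTheory Topology Set Complex Pool.Agent.Y745.LD Pool.Agent.Y745.SW Pool.Agent.Y757.LS
open scoped ENNReal

/-! ### the weight -/

theorem V_bd {κ c A T t : ℝ} (h : ‖tex (KA A T) ((κ : ℂ) * Pc c T t) - cexp ((κ : ℂ) * Pc c T t)‖ ≤
    1 / 2 * Real.exp (κ * (Pc c T t).re)) :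
    1 / 4 * Real.exp (2 * κ * (Pc c T t).re) ≤ V κ c A T t ∧
      V κ c A T t ≤ 9 / 4 * Real.exp (2 * κ * (Pc c T t).re) := by
  have he : ‖cexp ((κ : ℂ) * Pc c T t)‖ = Real.exp (κ * (Pc c T t).re) := by
    rw [Complex.norm_exp, Complex.re_ofReal_mul]
  have hp := Real.exp_pos (κ * (Pc c T t).re)
  have h1 : ‖Qk κ c A T t‖ ≤ 3 / 2 * Real.exp (κ * (Pc c T t).re) := by
    have := norm_add_le (tex (KA A T) ((κ : ℂ) * Pc c T t) - cexp ((κ : ℂ) * Pc c T t))
      (cexp ((κ : ℂ) * Pc c T t))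
    rw [sub_add_cancel, he] at this
    unfold Qk
    linarith
  have h2 : 1 / 2 * Real.exp (κ * (Pc c T t).re) ≤ ‖Qk κ c A T t‖ := by
    have := norm_sub_norm_le (cexp ((κ : ℂ) * Pc c T t)) (tex (KA A T) ((κ : ℂ) * Pc c T t))
    rw [norm_sub_rev, he] at this
    unfold Qk
    linarith
  have h3 : Real.exp (2 * κ * (Pc c T t).re) = Real.exp (κ * (Pc c T t).re) ^ 2 := by
    rw [← Real.exp_nat_mul]
    congr 1
    push_cast
    ring
  have h4 := norm_nonneg (Qk κ c A T t)
  rw [h3]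
  unfold V
  constructor <;> nlinarith

theorem Pc_cont (c T : ℝ) : Continuous (fun t => Pc c T t) := by
  unfold Pc Py
  refine continuous_finsetSum _ fun p hp => ?_
  have hp' : (p : ℂ) ≠ 0 := by
    have := (Finset.mem_filter.1 hp).2.pos
    exact_mod_cast this.ne'
  exact Continuous.const_cpow (by fun_prop) (Or.inl hp')

theorem V_cont (κ c A T : ℝ) : Continuous (fun t => V κ c A T t) := by
  unfold V Qk tex
  have := Pc_cont c T
  fun_prop

theorem V_nonneg (κ c A T t : ℝ) : 0 ≤ V κ c A T t := sq_nonneg _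

/-! ### zeta and the truncated logarithm -/

theorem pt_ne_one {s x : ℝ} (hx : 4 ≤ x) : pt s x ≠ 1 := by
  intro h
  have := congrArg Complex.im h
  rw [pt_im] at this
  simp at this
  linarith

theorem GG_le {s x : ℝ} (hs : 0 ≤ s) (hx : 4 ≤ x) : ‖GG (pt s x)‖ ≤ ‖riemannZeta (pt s x)‖ := by
  rw [GG_of_ne (pt_ne_one hx), norm_mul]
  have := ratio_le (s := pt s x) (by rw [pt_re]; linarith)
  exact mul_le_of_le_one_left (norm_nonneg _) this

theorem le_GG {s x : ℝ} (hs : 0 ≤ s) (hx : 4 ≤ x) :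
    1 / 2 * ‖riemannZeta (pt s x)‖ ≤ ‖GG (pt s x)‖ := by
  rw [GG_of_ne (pt_ne_one hx), norm_mul]
  have h1 : (4 : ℝ) ≤ ‖pt s x - 1‖ := by
    have h2 := Complex.abs_im_le_norm (pt s x - 1)
    rw [Complex.sub_im, pt_im, Complex.one_im, sub_zero] at h2
    have := le_abs_self x
    linarith
  have h2 := ratio_ge (s := pt s x) (by rw [pt_re]; linarith) (η := 4) (by norm_num) h1
  have h3 : (1 + 4 / 4 : ℝ)⁻¹ = 1 / 2 := by norm_num
  rw [h3] at h2
  gcongr

theorem g_cmp {s x : ℝ} (hs : 0 ≤ s) (hx : 4 ≤ x) (hz : riemannZeta (pt s x) ≠ 0) :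
    GG (pt s x) ≠ 0 ∧ Real.log ‖riemannZeta (pt s x)‖ - 1 ≤ g s x ∧
      g s x ≤ Real.log ‖riemannZeta (pt s x)‖ := by
  have h0 : 0 < ‖riemannZeta (pt s x)‖ := norm_pos_iff.2 hz
  have h1 := GG_le hs hx
  have h2 := le_GG hs hx
  have h3 : 0 < ‖GG (pt s x)‖ := by linarith
  refine ⟨norm_pos_iff.1 h3, ?_, Real.log_le_log h3 h1⟩
  have h4 := Real.log_le_log (by positivity) h2
  rw [Real.log_mul (by norm_num) h0.ne', one_div, Real.log_inv] at h4
  have h5 := Real.log_two_lt_d9
  unfold g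
  linarith

theorem F1 {N s x p : ℝ} (hs : 0 ≤ s) (hx : 4 ≤ x) (hz : riemannZeta (pt s x) ≠ 0)
    (hN : -N ≤ p) : |gN N s x - p| ≤ |Real.log ‖riemannZeta (pt s x)‖ - p| + 1 := by
  obtain ⟨h1, h2, h3⟩ := g_cmp hs hx hz
  rw [gN_of_ne h1]
  have h4 := le_abs_self (Real.log ‖riemannZeta (pt s x)‖ - p)
  have h5 := neg_abs_le (Real.log ‖riemannZeta (pt s x)‖ - p)
  rw [abs_le]
  rcases le_total (-N) (g s x) with h | h
  · rw [max_eq_right h]
    constructor <;> linarith
  · rw [max_eq_left h]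
    have := abs_nonneg (Real.log ‖riemannZeta (pt s x)‖ - p)
    constructor <;> linarith

theorem exp_two_log {z p : ℝ} (hz : 0 < z) :
    Real.exp (2 * (Real.log z - p)) = z ^ 2 * Real.exp (-2 * p) := by
  rw [show 2 * (Real.log z - p) = Real.log z + Real.log z + -2 * p by ring, Real.exp_add,
    Real.exp_add, Real.exp_log hz]
  ring

theorem F2 {N x p a : ℝ} (hx : 4 ≤ x) (hN : -N ≤ p) (ha : 0 ≤ a) :
    max (gN N 0 x - p) 0 ≤ a + Real.exp (-a) * (‖riemannZeta (pt 0 x)‖ ^ 2 * Real.exp (-2 * p)) := by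
  have h0 : 0 ≤ Real.exp (-a) * (‖riemannZeta (pt 0 x)‖ ^ 2 * Real.exp (-2 * p)) := by positivity
  apply max_le _ (by linarith)
  rcases le_or_gt (gN N 0 x - p) a with h | h
  · linarith
  · have h1 : GG (pt 0 x) ≠ 0 := by
      intro hc
      rw [gN_of_zero hc] at h
      linarith
    have hz : riemannZeta (pt 0 x) ≠ 0 := by
      intro hc
      rw [GG_of_ne (pt_ne_one hx), hc, mul_zero] at h1
      exact h1 rfl
    obtain ⟨-, -, h3⟩ := g_cmp le_rfl hx hz
    rw [gN_of_ne h1] at h ⊢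
    have h4 : max (-N) (g 0 x) = g 0 x := by
      apply max_eq_right
      by_contra hc
      push Not at hc
      rw [max_eq_left hc.le] at h
      linarith
    rw [h4] at h ⊢
    set u := g 0 x - p with hu
    have h5 : u ≤ Real.exp (-a) * Real.exp (2 * u) := by
      rw [← Real.exp_add]
      have := Real.add_one_le_exp (-a + 2 * u)
      linarith
    have h6 : Real.exp (2 * u) ≤ ‖riemannZeta (pt 0 x)‖ ^ 2 * Real.exp (-2 * p) := by
      rw [← exp_two_log (norm_pos_iff.2 hz)]
      apply Real.exp_le_exp.2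
      linarith
    calc u ≤ Real.exp (-a) * Real.exp (2 * u) := h5
      _ ≤ Real.exp (-a) * (‖riemannZeta (pt 0 x)‖ ^ 2 * Real.exp (-2 * p)) := by gcongr
      _ ≤ _ := by linarith

theorem F3 {N x p b : ℝ} (hx : 4 ≤ x) (hN : b ≤ p + N)
    (h : b < |Real.log ‖riemannZeta (pt 0 x)‖ - p|) :
    b ≤ max (p - gN N 0 x) 0 ∨
      Real.exp (2 * b) ≤ ‖riemannZeta (pt 0 x)‖ ^ 2 * Real.exp (-2 * p) := by
  by_cases hz : riemannZeta (pt 0 x) = 0
  · left
    have h1 : GG (pt 0 x) = 0 := by rw [GG_of_ne (pt_ne_one hx), hz, mul_zero]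
    rw [gN_of_zero h1]
    exact le_max_of_le_left (by linarith)
  · obtain ⟨h1, h2, h3⟩ := g_cmp le_rfl hx hz
    rcases lt_abs.1 h with h4 | h4
    · right
      rw [← exp_two_log (norm_pos_iff.2 hz)]
      apply Real.exp_le_exp.2
      linarith
    · left
      rw [gN_of_ne h1]
      apply le_max_of_le_left
      have : max (-N) (g 0 x) ≤ p - b := max_le (by linarith) (by linarith)
      linarith

/-! ### heights where all zeros are near the line -/

theorem nz_of_closure {r D T σ a b t : ℝ} (hrL : 0 < r * Real.log T) (hσ : 0 < σ) (hσ' : σ < 1 / 2)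
    (hD : D * LL T / Real.log T < σ) (ht : t ∈ closure (G1 r D T ∩ Icc a b)) :
    riemannZeta (pt σ t) ≠ 0 := by
  intro hz
  obtain ⟨t', ht', hd⟩ := Metric.mem_closure_iff.1 ht _ hrL
  have h1 := ht'.1 (pt σ t) hz (by rw [pt_re]; linarith) (by rw [pt_re]; linarith)
    (by rw [pt_im]; rw [Real.dist_eq] at hd; exact hd.le)
  rw [pt_re, add_sub_cancel_left, abs_of_pos hσ] at h1
  linarith

theorem zl_int {D T σ a b : ℝ} (hL : 0 < Real.log T) (hσ : 0 < σ) (hσ' : σ < 1 / 2)
    (hD : D * LL T / Real.log T < σ) (ha : 0 < a) {V p : ℝ → ℝ} (hV : Continuous V)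
    (hp : Continuous p) :
    IntegrableOn (fun t => V t * (Real.log ‖riemannZeta (pt σ t)‖ - p t) ^ 2)
      (G1 1 D T ∩ Icc a b) := by
  have hcomp : IsCompact (closure (G1 1 D T ∩ Icc a b)) :=
    (isCompact_Icc (a := a) (b := b)).closure_of_subset inter_subset_right
  have hc : ContinuousOn (fun t => V t * (Real.log ‖riemannZeta (pt σ t)‖ - p t) ^ 2)
      (closure (G1 1 D T ∩ Icc a b)) := by
    have h1 : ContinuousOn (fun t => riemannZeta (pt σ t)) (closure (G1 1 D T ∩ Icc a b)) := by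
      intro t ht
      have h2 : t ∈ Icc a b := by
        have := closure_mono (inter_subset_right (s := G1 1 D T) (t := Icc a b)) ht
        rwa [isClosed_Icc.closure_eq] at this
      have h3 : pt σ t ≠ 1 := by
        intro h
        have := congrArg Complex.im h
        rw [pt_im] at this
        simp at this
        linarith [h2.1]
      have h4 : ContinuousAt (fun t => pt σ t) t := by
        have : Continuous (fun t => pt σ t) := by unfold pt; fun_prop
        exact this.continuousAt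
      exact ((differentiableAt_riemannZeta h3).continuousAt.comp
        (f := fun t => pt σ t) h4).continuousWithinAt
    have h5 : ContinuousOn (fun t => Real.log ‖riemannZeta (pt σ t)‖)
        (closure (G1 1 D T ∩ Icc a b)) :=
      h1.norm.log fun t ht => norm_ne_zero_iff.2 (nz_of_closure (by linarith) hσ hσ' hD ht)
    exact hV.continuousOn.mul ((h5.sub hp.continuousOn).pow 2)
  exact (hc.integrableOn_compact hcomp).mono_set subset_closure

end Pool.Agent.Y448.LD
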