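import Mathlib
import Pool.Agent.Y448.LD.LowB

/-!
LD-LOW, part C: the weighted mean of the negative part of `log |ζ| - Re P` (helper448).
-/

set_option autoImplicit false

namespace Pool.Agent.Y448.LD

open MeasureTheory Topology Set Complex Pool.Agent.Y745.LD Pool.Agent.Y745.SW Pool.Agent.Y757.LS
open scoped ENNReal

/-- the weighted mean of the negative part of `log |ζ| - p` -/
def CoreP (C0 : ℝ) : Prop := ∀ (V p : ℝ → ℝ) (G0 : Set ℝ) (N d w Cκ a B1 W I : ℝ),
    Continuous V → (∀ t, 0 ≤ V t) → Continuous p → MeasurableSet G0 → 0 ≤ N → 0 < d → d ≤ 1 →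
    0 < w → 0 ≤ Cκ → 0 ≤ a → 0 ≤ B1 → 0 ≤ W → 0 ≤ I →
    (∀ x ∈ Metric.thickening (3 * w) G0, 4 ≤ x ∧ -N ≤ p x ∧ riemannZeta (pt d x) ≠ 0 ∧
      riemannZeta (pt (2 * d) x) ≠ 0 ∧
      4 * (C0 + 4 * Real.log (1 + |x|) + |p x| + 16 * d) * Real.exp (-(w / (2 * d))) ≤ 1) →
    4 * (1 + 16 * d) * Real.exp (-(w / (2 * d))) ≤ 1 / 2 →
    (∀ x ∈ Metric.thickening (2 * w) G0, ∀ y ∈ Icc (-w) w, |p (x + y) - p x| ≤ 2 ∧
      V x ≤ Cκ * V (x + y) ∧ V (x + y) ≤ Cκ * V x) →
    ∫⁻ x in Metric.thickening (3 * w) G0, ENNReal.ofReal (V x) ≤ ENNReal.ofReal I →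
    ∫⁻ x in Metric.thickening (3 * w) G0, ENNReal.ofReal (V x *
      |Real.log ‖riemannZeta (pt d x)‖ - p x|) ≤ ENNReal.ofReal (B1 * I) →
    ∫⁻ x in Metric.thickening (3 * w) G0, ENNReal.ofReal (V x *
      |Real.log ‖riemannZeta (pt (2 * d) x)‖ - p x|) ≤ ENNReal.ofReal (B1 * I) →
    ∫⁻ x in Metric.thickening (3 * w) G0, ENNReal.ofReal (V x *
      (‖riemannZeta (pt 0 x)‖ ^ 2 * Real.exp (-2 * p x))) ≤ ENNReal.ofReal (W * I) →
    Real.exp (-a) * W ≤ 1 →
    ∫⁻ x in G0, ENNReal.ofReal (V x) * ENNReal.ofReal (max (p x - gN N 0 x) 0) ≤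
      ENNReal.ofReal ((2 * Cκ * (2 * B1 + 8) + Cκ ^ 2 * (a + 2 + B1)) * I)

theorem coreL : ∃ C0 : ℝ, 0 ≤ C0 ∧ CoreP C0 := by
  obtain ⟨C0, hC0, hpois⟩ := pois
  refine ⟨C0, hC0, ?_⟩
  intro V p G0 N d w Cκ a B1 W I hV hV0 hp hG0 hN hd hd1 hw hCκ ha hB1 hW hI hH htail hcmp hmV hm1 hm2
    hmW haW
  set H := Metric.thickening (3 * w) G0 with hHdef
  set G1' := Metric.thickening (2 * w) G0 with hG1def
  have hHm : MeasurableSet H := Metric.isOpen_thickening.measurableSet
  have hG1m : MeasurableSet G1' := Metric.isOpen_thickening.measurableSet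
  have hsub : G1' ⊆ H := Metric.thickening_mono (by linarith) _
  have h01 : ∀ x ∈ G0, ∀ y ∈ Icc (-w) w, x - y ∈ G1' := by
    intro x hx y hy
    rw [hG1def, Metric.mem_thickening_iff]
    refine ⟨x, hx, ?_⟩
    rw [Real.dist_eq, show x - y - x = -y by ring, abs_neg]
    have := abs_le.2 hy
    linarith
  have h1H : ∀ x ∈ G1', ∀ y ∈ Icc (-w) w, x + y ∈ H := by
    intro x hx y hy
    rw [hG1def, Metric.mem_thickening_iff] at hx
    obtain ⟨t, ht, hd⟩ := hx
    rw [hHdef, Metric.mem_thickening_iff]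
    refine ⟨t, ht, ?_⟩
    rw [Real.dist_eq] at hd ⊢
    have h1 := abs_add_le (x - t) y
    rw [show x - t + y = x + y - t by ring] at h1
    have := abs_le.2 hy
    linarith
  have mg : ∀ s, Measurable (fun x => gN N s x) := fun s =>
    gN_meas_comp N measurable_const measurable_id
  have hconv := conv (V := fun x => ENNReal.ofReal (V x))
    (f := fun x => ENNReal.ofReal (max (p x - gN N 0 x) 0))
    (g := fun x => ENNReal.ofReal (max (gN N 0 x - p x) 0 + |gN N (2 * d) x - p x|))
    (h := fun x => ENNReal.ofReal (2 * |gN N d x - p x| + 6))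
    (K := fun y => ENNReal.ofReal (ker d y)) (w := w) (G0 := G0) (G1 := G1') (H := H)
    (C := ENNReal.ofReal Cκ)
    hV.measurable.ennreal_ofReal ((hp.measurable.sub (mg 0)).max measurable_const).ennreal_ofReal
    ((((mg 0).sub hp.measurable).max measurable_const).add
      (measurable_norm.comp ((mg (2 * d)).sub hp.measurable))).ennreal_ofReal
    (((measurable_norm.comp ((mg d).sub hp.measurable)).const_mul 2).add_const 6).ennreal_ofReal
    (ker_continuous hd).measurable.ennreal_ofReal hG0 hG1m hHm h01 h1H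
    (by
      intro x hx y hy
      rw [← ENNReal.ofReal_mul hCκ]
      exact ENNReal.ofReal_le_ofReal (hcmp x hx y hy).2.1)
    (by
      intro x hx y hy
      rw [← ENNReal.ofReal_mul hCκ]
      exact ENNReal.ofReal_le_ofReal (hcmp x hx y hy).2.2)
    (by
      intro x hx
      obtain ⟨-, -, -, -, h5⟩ := hH x (hsub hx)
      exact hpois N x d w p hN hd hd1 hw.le hp (fun y hy => (hcmp x hx y hy).1) h5)
  -- mass of the kernel
  obtain ⟨k1, k2⟩ := ker_mass (w := w) hd htail
  have hk : ∫⁻ y in Icc (-w) w, ENNReal.ofReal (ker d y) =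
      ENNReal.ofReal (∫ y in Icc (-w) w, ker d y) :=
    (ofReal_integral_eq_lintegral_ofReal (ker_integrable hd).integrableOn
      (Filter.Eventually.of_forall fun y => (ker_pos hd y).le)).symm
  rw [hk] at hconv
  set m0 := ∫ y in Icc (-w) w, ker d y with hm0
  -- first integral
  have hY : ∫⁻ x in G1', ENNReal.ofReal (V x) * ENNReal.ofReal (2 * |gN N d x - p x| + 6) ≤
      ENNReal.ofReal ((2 * B1 + 8) * I) := by
    calc ∫⁻ x in G1', ENNReal.ofReal (V x) * ENNReal.ofReal (2 * |gN N d x - p x| + 6)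
        ≤ ∫⁻ x in H, ENNReal.ofReal (V x) * ENNReal.ofReal (2 * |gN N d x - p x| + 6) :=
          lintegral_mono_set hsub
      _ ≤ ∫⁻ x in H, (8 * ENNReal.ofReal (V x) + 2 * ENNReal.ofReal (V x *
            |Real.log ‖riemannZeta (pt d x)‖ - p x|)) := by
          refine setLIntegral_mono' hHm fun x hx => ?_
          obtain ⟨q1, q2, q3, -, -⟩ := hH x hx
          have h1 := F1 (N := N) hd.le q1 q3 q2
          rw [← ENNReal.ofReal_mul (hV0 x), show (8 : ℝ≥0∞) = ENNReal.ofReal 8 by norm_num,
            show (2 : ℝ≥0∞) = ENNReal.ofReal 2 by norm_num, ← ENNReal.ofReal_mul (by norm_num),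
            ← ENNReal.ofReal_mul (by norm_num),
            ← ENNReal.ofReal_add (mul_nonneg (by norm_num) (hV0 x))
              (mul_nonneg (by norm_num) (mul_nonneg (hV0 x) (abs_nonneg _)))]
          apply ENNReal.ofReal_le_ofReal
          have := hV0 x
          calc V x * (2 * |gN N d x - p x| + 6) ≤
              V x * (2 * (|Real.log ‖riemannZeta (pt d x)‖ - p x| + 1) + 6) := by gcongr
            _ = _ := by ring
      _ = 8 * (∫⁻ x in H, ENNReal.ofReal (V x)) + 2 * ∫⁻ x in H, ENNReal.ofReal (V x *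
            |Real.log ‖riemannZeta (pt d x)‖ - p x|) := by
          have m1 : Measurable (fun x => (8 : ℝ≥0∞) * ENNReal.ofReal (V x)) :=
            hV.measurable.ennreal_ofReal.const_mul _
          rw [lintegral_add_left m1, lintegral_const_mul _ hV.measurable.ennreal_ofReal,
            lintegral_const_mul' _ _ (by norm_num)]
      _ ≤ 8 * ENNReal.ofReal I + 2 * ENNReal.ofReal (B1 * I) := by gcongr
      _ = _ := by
          rw [show (8 : ℝ≥0∞) = ENNReal.ofReal 8 by norm_num,
            show (2 : ℝ≥0∞) = ENNReal.ofReal 2 by norm_num, ← ENNReal.ofReal_mul (by norm_num),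
            ← ENNReal.ofReal_mul (by norm_num), ← ENNReal.ofReal_add (by positivity) (by positivity)]
          congr 1
          ring
  -- second integral
  have hZ : ∫⁻ x in H, ENNReal.ofReal (V x) *
      ENNReal.ofReal (max (gN N 0 x - p x) 0 + |gN N (2 * d) x - p x|) ≤
      ENNReal.ofReal ((a + 2 + B1) * I) := by
    calc ∫⁻ x in H, ENNReal.ofReal (V x) *
          ENNReal.ofReal (max (gN N 0 x - p x) 0 + |gN N (2 * d) x - p x|)
        ≤ ∫⁻ x in H, (ENNReal.ofReal (a + 1) * ENNReal.ofReal (V x) +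
            (ENNReal.ofReal (Real.exp (-a)) * ENNReal.ofReal (V x *
              (‖riemannZeta (pt 0 x)‖ ^ 2 * Real.exp (-2 * p x))) +
            ENNReal.ofReal (V x * |Real.log ‖riemannZeta (pt (2 * d) x)‖ - p x|))) := by
          refine setLIntegral_mono' hHm fun x hx => ?_
          obtain ⟨q1, q2, -, q3, -⟩ := hH x hx
          have h1 := F1 (N := N) (s := 2 * d) (by linarith) q1 q3 q2
          have h2 := F2 (a := a) q1 q2 ha
          have hv := hV0 x
          rw [← ENNReal.ofReal_mul hv, ← ENNReal.ofReal_mul (by positivity),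
            ← ENNReal.ofReal_mul (Real.exp_pos _).le,
            ← ENNReal.ofReal_add (by positivity) (by positivity),
            ← ENNReal.ofReal_add (by positivity) (by positivity)]
          apply ENNReal.ofReal_le_ofReal
          calc V x * (max (gN N 0 x - p x) 0 + |gN N (2 * d) x - p x|) ≤
              V x * ((a + Real.exp (-a) * (‖riemannZeta (pt 0 x)‖ ^ 2 * Real.exp (-2 * p x))) +
                (|Real.log ‖riemannZeta (pt (2 * d) x)‖ - p x| + 1)) := by gcongr
            _ = _ := by ring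
      _ = ENNReal.ofReal (a + 1) * (∫⁻ x in H, ENNReal.ofReal (V x)) +
            (ENNReal.ofReal (Real.exp (-a)) * (∫⁻ x in H, ENNReal.ofReal (V x *
              (‖riemannZeta (pt 0 x)‖ ^ 2 * Real.exp (-2 * p x)))) +
            ∫⁻ x in H, ENNReal.ofReal (V x * |Real.log ‖riemannZeta (pt (2 * d) x)‖ - p x|)) := by
          have m1 : Measurable (fun x => ENNReal.ofReal (a + 1) * ENNReal.ofReal (V x)) :=
            hV.measurable.ennreal_ofReal.const_mul _
          have m2 : Measurable (fun x => riemannZeta (pt (2 * d) x)) := by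
            have h1 : Measurable riemannZeta := by
              have h2 : ContinuousOn riemannZeta {1}ᶜ := fun s hs =>
                (differentiableAt_riemannZeta hs).continuousAt.continuousWithinAt
              exact measurable_of_continuousOn_compl_singleton 1 h2
            exact h1.comp (by unfold pt; fun_prop)
          have m3 : Measurable (fun x =>
              ENNReal.ofReal (V x * |Real.log ‖riemannZeta (pt (2 * d) x)‖ - p x|)) := by
            refine Measurable.ennreal_ofReal ?_
            exact hV.measurable.mul (measurable_norm.comp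
              ((Real.measurable_log.comp m2.norm).sub hp.measurable))
          rw [lintegral_add_left m1, lintegral_const_mul _ hV.measurable.ennreal_ofReal,
            lintegral_add_right _ m3, lintegral_const_mul' _ _ (by finiteness)]
      _ ≤ ENNReal.ofReal (a + 1) * ENNReal.ofReal I + (ENNReal.ofReal (Real.exp (-a)) *
            ENNReal.ofReal (W * I) + ENNReal.ofReal (B1 * I)) := by gcongr
      _ = ENNReal.ofReal ((a + 1) * I + (Real.exp (-a) * (W * I) + B1 * I)) := by
          rw [← ENNReal.ofReal_mul (by positivity), ← ENNReal.ofReal_mul (by positivity),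
            ← ENNReal.ofReal_add (by positivity) (by positivity),
            ← ENNReal.ofReal_add (by positivity) (by positivity)]
      _ ≤ ENNReal.ofReal ((a + 2 + B1) * I) := by
          apply ENNReal.ofReal_le_ofReal
          have : Real.exp (-a) * (W * I) ≤ 1 * I := by
            rw [← mul_assoc]; gcongr
          linarith
  -- conclusion
  have hm0pos : 0 < m0 := by linarith
  have key : ENNReal.ofReal m0 * ∫⁻ x in G0, ENNReal.ofReal (V x) *
      ENNReal.ofReal (max (p x - gN N 0 x) 0) ≤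
      ENNReal.ofReal m0 * ENNReal.ofReal ((2 * Cκ * (2 * B1 + 8) + Cκ ^ 2 * (a + 2 + B1)) * I) := by
    calc ENNReal.ofReal m0 * ∫⁻ x in G0, ENNReal.ofReal (V x) *
          ENNReal.ofReal (max (p x - gN N 0 x) 0)
        ≤ ENNReal.ofReal Cκ * ENNReal.ofReal ((2 * B1 + 8) * I) +
          ENNReal.ofReal Cκ * ENNReal.ofReal Cκ * (ENNReal.ofReal m0 *
            ENNReal.ofReal ((a + 2 + B1) * I)) := by
          refine hconv.trans ?_
          gcongr
      _ = ENNReal.ofReal (Cκ * ((2 * B1 + 8) * I) + Cκ * Cκ * (m0 * ((a + 2 + B1) * I))) := by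
          rw [← ENNReal.ofReal_mul hCκ, ← ENNReal.ofReal_mul hCκ, ← ENNReal.ofReal_mul hm0pos.le,
            ← ENNReal.ofReal_mul (by positivity), ← ENNReal.ofReal_add (by positivity) (by positivity)]
      _ ≤ _ := by
          rw [← ENNReal.ofReal_mul hm0pos.le]
          apply ENNReal.ofReal_le_ofReal
          have h1 : 0 ≤ Cκ * ((2 * B1 + 8) * I) := by positivity
          nlinarith
  rwa [ENNReal.mul_le_mul_iff_right (by simpa using hm0pos) ENNReal.ofReal_ne_top] at key

end Pool.Agent.Y448.LD
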