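import Mathlib
import Pool.Agent.Y448.LD.LowC

/-!
LD-LOW, part D: masses (helper448).
-/

set_option autoImplicit false

namespace Pool.Agent.Y448.LD

open MeasureTheory Topology Set Complex Pool.Agent.Y745.LD Pool.Agent.Y745.SW Pool.Agent.Y757.LS
open Filter (atTop Tendsto)
open scoped ENNReal

/-- the facts of VM1 at one height -/
def VM (κ c A C T : ℝ) : Prop :=
  |sc c T - c * LL T| ≤ C ∧
  T * Real.exp (κ ^ 2 * sc c T) ≤ C * IV κ c A T ∧
  ∫ t in T..(2 * T), V κ c A T t ^ 2 ≤ C * (T * Real.exp (4 * κ ^ 2 * sc c T)) ∧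
  ∀ t ∈ Set.Icc T (2 * T), V κ c A T t ≤ T ^ (1 / 4 : ℝ)

theorem tL : Tendsto Real.log atTop atTop := Real.tendsto_log_atTop

theorem tLL : Tendsto LL atTop atTop := by
  unfold LL
  exact Real.tendsto_log_atTop.comp Real.tendsto_log_atTop

theorem exp_LL {x T : ℝ} (hL : 0 < Real.log T) : Real.exp (x * LL T) = Real.log T ^ x := by
  unfold LL
  rw [Real.rpow_def_of_pos hL, mul_comm]

theorem mass_small {κ c A C : ℝ} (hc1 : c < 1) (hC : 1 ≤ C)
    (h : ∀ᶠ T : ℝ in atTop, VM κ c A C T) {δ : ℝ} (hδ : 0 < δ) :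
    ∀ᶠ T : ℝ in atTop, ∀ X : Set ℝ, X ⊆ Icc T (2 * T) → MeasurableSet X →
      volume.real X ≤ 3 * (T / Real.log T ^ (2 * κ ^ 2 + 2)) →
      ∫ t in X, V κ c A T t ≤ δ * IV κ c A T := by
  have hK : 0 < C * (3 * Real.exp (2 * κ ^ 2 * C) + C) / δ := by positivity
  filter_upwards [h, tL.eventually_ge_atTop 1, tLL.eventually_ge_atTop 0,
    Filter.eventually_ge_atTop 1, tL.eventually_ge_atTop (C * (3 * Real.exp (2 * κ ^ 2 * C) + C) / δ)]
    with T ⟨h1, h2, h3, _⟩ hL hLL hT hLK X hX hXm hvol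
  set s := sc c T with hs
  set L := Real.log T with hLdef
  have hL0 : 0 < L := by linarith
  have hT0 : 0 < T := by linarith
  set θ := L * Real.exp (3 * κ ^ 2 * s) with hθ
  have hθ0 : 0 < θ := by positivity
  have hVc := V_cont κ c A T
  have i1 : IntegrableOn (fun t => V κ c A T t) X :=
    (hVc.continuousOn.integrableOn_compact isCompact_Icc).mono_set hX
  have hV2c : Continuous (fun t => V κ c A T t ^ 2) := hVc.pow 2
  have i2' : IntegrableOn (fun t => V κ c A T t ^ 2) (Icc T (2 * T)) :=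
    hV2c.continuousOn.integrableOn_compact isCompact_Icc
  have i2 : IntegrableOn (fun t => V κ c A T t ^ 2) X := i2'.mono_set hX
  have hXf : volume X ≠ ⊤ := ((measure_mono hX).trans_lt (by rw [Real.volume_Icc]; finiteness)).ne
  have i3 : IntegrableOn (fun _ : ℝ => θ) X := integrableOn_const hXf
  have s1 : ∫ t in X, V κ c A T t ≤ θ * volume.real X + (∫ t in T..(2 * T), V κ c A T t ^ 2) / θ := by
    calc ∫ t in X, V κ c A T t ≤ ∫ t in X, (θ + V κ c A T t ^ 2 / θ) := by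
          refine setIntegral_mono_on i1 (i3.add (i2.div_const θ)) hXm ?_
          intro t _
          have h4 : V κ c A T t * θ ≤ (θ + V κ c A T t ^ 2 / θ) * θ := by
            have e : (θ + V κ c A T t ^ 2 / θ) * θ = θ ^ 2 + V κ c A T t ^ 2 := by
              field_simp
            rw [e]
            nlinarith [sq_nonneg (V κ c A T t - θ), sq_nonneg (V κ c A T t + θ)]
          exact le_of_mul_le_mul_right h4 hθ0
      _ = θ * volume.real X + (∫ t in X, V κ c A T t ^ 2) / θ := by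
          rw [integral_add i3 (i2.div_const θ), setIntegral_const,
            smul_eq_mul, mul_comm, integral_div]
      _ ≤ _ := by
          gcongr
          rw [intervalIntegral.integral_of_le (by linarith), ← integral_Icc_eq_integral_Ioc]
          exact setIntegral_mono_set i2' (Filter.Eventually.of_forall fun t => sq_nonneg _)
            (Filter.Eventually.of_forall hX)
  have hs' : s ≤ LL T + C := by
    have h4 := (abs_le.1 h1).2
    have h5 : c * LL T ≤ 1 * LL T := by gcongr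
    linarith
  have e1 : Real.exp (2 * κ ^ 2 * s) ≤ L ^ (2 * κ ^ 2) * Real.exp (2 * κ ^ 2 * C) := by
    rw [← exp_LL hL0, ← Real.exp_add]
    apply Real.exp_le_exp.2
    have : 2 * κ ^ 2 * s ≤ 2 * κ ^ 2 * (LL T + C) := by gcongr
    linarith
  have e2 : Real.exp (3 * κ ^ 2 * s) = Real.exp (κ ^ 2 * s) * Real.exp (2 * κ ^ 2 * s) := by
    rw [← Real.exp_add]; congr 1; ring
  have e3 : Real.exp (4 * κ ^ 2 * s) = Real.exp (κ ^ 2 * s) * Real.exp (3 * κ ^ 2 * s) := by
    rw [← Real.exp_add]; congr 1; ring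
  have e4 : L ^ (2 * κ ^ 2 + 2) = L ^ (2 * κ ^ 2) * L ^ 2 := by
    rw [Real.rpow_add hL0]
    congr 1
    exact Real.rpow_natCast L 2
  have hLp : 0 < L ^ (2 * κ ^ 2) := by positivity
  set E := Real.exp (κ ^ 2 * s) with hE
  have hE0 : 0 < E := Real.exp_pos _
  have s2 : θ * volume.real X ≤ T * E / L * (3 * Real.exp (2 * κ ^ 2 * C)) := by
    calc θ * volume.real X ≤ θ * (3 * (T / L ^ (2 * κ ^ 2 + 2))) := by gcongr
      _ = T * E / L * (3 * (Real.exp (2 * κ ^ 2 * s) / L ^ (2 * κ ^ 2))) := by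
          rw [hθ, e2, e4]
          field_simp
      _ ≤ T * E / L * (3 * Real.exp (2 * κ ^ 2 * C)) := by
          have : Real.exp (2 * κ ^ 2 * s) / L ^ (2 * κ ^ 2) ≤ Real.exp (2 * κ ^ 2 * C) := by
            rw [div_le_iff₀ hLp]
            linarith
          gcongr
  have s3 : (∫ t in T..(2 * T), V κ c A T t ^ 2) / θ ≤ T * E / L * C := by
    rw [div_le_iff₀ hθ0]
    refine h3.trans (le_of_eq ?_)
    rw [hθ, e3]
    field_simp
  have s4 : T * E ≤ C * IV κ c A T := h2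
  have hLK' : C * (3 * Real.exp (2 * κ ^ 2 * C) + C) ≤ δ * L := by
    rw [div_le_iff₀ hδ] at hLK
    linarith
  have hI : 0 ≤ IV κ c A T := by
    have : 0 < T * E := by positivity
    by_contra hcon
    push Not at hcon
    nlinarith
  calc ∫ t in X, V κ c A T t ≤ T * E / L * (3 * Real.exp (2 * κ ^ 2 * C)) + T * E / L * C := by
        linarith
    _ = T * E * (3 * Real.exp (2 * κ ^ 2 * C) + C) / L := by ring
    _ ≤ (C * IV κ c A T) * (3 * Real.exp (2 * κ ^ 2 * C) + C) / L := by gcongr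
    _ = (C * (3 * Real.exp (2 * κ ^ 2 * C) + C)) * IV κ c A T / L := by ring
    _ ≤ (δ * L) * IV κ c A T / L := by gcongr
    _ = δ * IV κ c A T := by field_simp

/-- the weighted second moment of `ζ` -/
theorem W_mass {κ c A C η : ℝ} (hC : 1 ≤ C) (hη : 0 < η) (hcη : 1 - c ≤ η / 4)
    (h : ∀ᶠ T : ℝ in atTop, VM κ c A C T)
    (hZ : ∀ᶠ T : ℝ in atTop, ∫ t in T..(2 * T), V (κ - 1) c A T t * ‖riemannZeta (1 / 2 + t * I)‖ ^ 2 ≤
      T * Real.log T ^ (1 + η / 4) * Real.exp ((2 * (κ - 1) + (κ - 1) ^ 2) * sc c T)) :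
    ∀ᶠ T : ℝ in atTop, 9 * (∫ t in T..(2 * T), V (κ - 1) c A T t * ‖riemannZeta (1 / 2 + t * I)‖ ^ 2) ≤
      Real.log T ^ (3 * η / 4) * IV κ c A T := by
  have ht : Tendsto (fun T : ℝ => Real.log T ^ (η / 4)) atTop atTop :=
    (tendsto_rpow_atTop (by positivity)).comp tL
  filter_upwards [h, hZ, tL.eventually_ge_atTop 1, Filter.eventually_ge_atTop 1,
    ht.eventually_ge_atTop (9 * C * Real.exp C)] with T ⟨h1, h2, _, _⟩ hZT hL hT hK
  set s := sc c T with hs
  set L := Real.log T with hLdef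
  have hL0 : 0 < L := by linarith
  have hT0 : 0 < T := by linarith
  set E := Real.exp (κ ^ 2 * s) with hE
  have hE0 : 0 < E := Real.exp_pos _
  have hI : 0 ≤ IV κ c A T := by
    have : 0 < T * E := by positivity
    by_contra hcon
    push Not at hcon
    nlinarith
  have e1 : Real.exp ((2 * (κ - 1) + (κ - 1) ^ 2) * s) = E * Real.exp (-s) := by
    rw [hE, ← Real.exp_add]; congr 1; ring
  have e2 : Real.exp (-s) ≤ L ^ (-c) * Real.exp C := by
    rw [← exp_LL hL0, ← Real.exp_add]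
    apply Real.exp_le_exp.2
    have := (abs_le.1 h1).1
    linarith
  have e3 : L ^ (1 + η / 4) * L ^ (-c) ≤ L ^ (η / 2) := by
    rw [← Real.rpow_add hL0]
    apply Real.rpow_le_rpow_of_exponent_le hL
    linarith
  have e4 : L ^ (3 * η / 4) = L ^ (η / 2) * L ^ (η / 4) := by
    rw [← Real.rpow_add hL0]; congr 1; ring
  calc 9 * (∫ t in T..(2 * T), V (κ - 1) c A T t * ‖riemannZeta (1 / 2 + t * I)‖ ^ 2)
      ≤ 9 * (T * L ^ (1 + η / 4) * (E * Real.exp (-s))) := by rw [← e1]; gcongr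
    _ = 9 * (T * E) * (L ^ (1 + η / 4) * Real.exp (-s)) := by ring
    _ ≤ 9 * (C * IV κ c A T) * (L ^ (1 + η / 4) * (L ^ (-c) * Real.exp C)) := by gcongr
    _ = (9 * C * Real.exp C) * IV κ c A T * (L ^ (1 + η / 4) * L ^ (-c)) := by ring
    _ ≤ L ^ (η / 4) * IV κ c A T * L ^ (η / 2) := by gcongr
    _ = _ := by rw [e4]; ring

/-- the mean of `|q|` from the mean of `q ^ 2` -/
theorem q_bound {V q : ℝ → ℝ} {S H : Set ℝ} {ℓ I : ℝ} (hHS : H ⊆ S) (hHm : MeasurableSet H)
    (hV0 : ∀ t, 0 ≤ V t) (hVm : Measurable V)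
    (hint : IntegrableOn (fun t => V t * q t ^ 2) S) (hℓ : 0 < ℓ) (hI : 0 ≤ I)
    (h1 : ∫⁻ x in H, ENNReal.ofReal (V x) ≤ ENNReal.ofReal I)
    (h2 : ∫ t in S, V t * q t ^ 2 ≤ 3 * ℓ * I) :
    ∫⁻ x in H, ENNReal.ofReal (V x * |q x|) ≤ ENNReal.ofReal (4 * Real.sqrt ℓ * I) := by
  have hsq : 0 < Real.sqrt ℓ := Real.sqrt_pos.2 hℓ
  have hss : Real.sqrt ℓ * Real.sqrt ℓ = ℓ := Real.mul_self_sqrt hℓ.le
  calc ∫⁻ x in H, ENNReal.ofReal (V x * |q x|)
      ≤ ∫⁻ x in H, (ENNReal.ofReal (Real.sqrt ℓ) * ENNReal.ofReal (V x) +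
          ENNReal.ofReal (1 / Real.sqrt ℓ) * ENNReal.ofReal (V x * q x ^ 2)) := by
        refine setLIntegral_mono' hHm fun x _ => ?_
        have hv := hV0 x
        rw [← ENNReal.ofReal_mul hsq.le, ← ENNReal.ofReal_mul (by positivity),
          ← ENNReal.ofReal_add (by positivity) (by positivity)]
        apply ENNReal.ofReal_le_ofReal
        have h3 : |q x| ≤ Real.sqrt ℓ + 1 / Real.sqrt ℓ * q x ^ 2 := by
          have h4 : |q x| * Real.sqrt ℓ ≤ (Real.sqrt ℓ + 1 / Real.sqrt ℓ * q x ^ 2) * Real.sqrt ℓ := by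
            have e : (Real.sqrt ℓ + 1 / Real.sqrt ℓ * q x ^ 2) * Real.sqrt ℓ =
                Real.sqrt ℓ * Real.sqrt ℓ + q x ^ 2 := by
              field_simp
            rw [e, ← sq_abs (q x)]
            nlinarith [sq_nonneg (|q x| - Real.sqrt ℓ), sq_nonneg (|q x| + Real.sqrt ℓ)]
          exact le_of_mul_le_mul_right h4 hsq
        calc V x * |q x| ≤ V x * (Real.sqrt ℓ + 1 / Real.sqrt ℓ * q x ^ 2) := by gcongr
          _ = _ := by ring
    _ = ENNReal.ofReal (Real.sqrt ℓ) * (∫⁻ x in H, ENNReal.ofReal (V x)) +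
          ENNReal.ofReal (1 / Real.sqrt ℓ) * ∫⁻ x in H, ENNReal.ofReal (V x * q x ^ 2) := by
        rw [lintegral_add_left (hVm.ennreal_ofReal.const_mul _),
          lintegral_const_mul _ hVm.ennreal_ofReal, lintegral_const_mul' _ _ (by finiteness)]
    _ ≤ ENNReal.ofReal (Real.sqrt ℓ) * ENNReal.ofReal I +
          ENNReal.ofReal (1 / Real.sqrt ℓ) * ENNReal.ofReal (3 * ℓ * I) := by
        gcongr
        calc ∫⁻ x in H, ENNReal.ofReal (V x * q x ^ 2) ≤ ∫⁻ x in S, ENNReal.ofReal (V x * q x ^ 2) :=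
              lintegral_mono_set hHS
          _ = ENNReal.ofReal (∫ t in S, V t * q t ^ 2) :=
              (ofReal_integral_eq_lintegral_ofReal hint
                (Filter.Eventually.of_forall fun t => mul_nonneg (hV0 t) (sq_nonneg _))).symm
          _ ≤ _ := ENNReal.ofReal_le_ofReal h2
    _ = ENNReal.ofReal (4 * Real.sqrt ℓ * I) := by
        rw [← ENNReal.ofReal_mul (by positivity), ← ENNReal.ofReal_mul (by positivity),
          ← ENNReal.ofReal_add (by positivity) (by positivity)]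
        congr 1
        have : 1 / Real.sqrt ℓ * (3 * ℓ * I) = 3 * Real.sqrt ℓ * I := by
          have e : ℓ / Real.sqrt ℓ = Real.sqrt ℓ := Real.div_sqrt
          calc 1 / Real.sqrt ℓ * (3 * ℓ * I) = 3 * (ℓ / Real.sqrt ℓ) * I := by ring
            _ = _ := by rw [e]
        rw [this]
        ring

end Pool.Agent.Y448.LD
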