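import Mathlib
import Pool.Agent.Y448.LD.LowD

/-!
LD-LOW: on the critical line `log |ζ|` is near `Re P` for most heights, with the weight (helper448).
-/

set_option autoImplicit false

namespace Pool.Agent.Y448.LD

open MeasureTheory Topology Set Complex Pool.Agent.Y745.LD Pool.Agent.Y745.SW Pool.Agent.Y757.LS
open Filter (atTop Tendsto)
open scoped ENNReal

theorem ev_tail (K b : ℝ) (hb : 0 < b) :
    ∀ᶠ L : ℝ in atTop, 4 * (K + 9 * L) * Real.exp (-(L ^ b / 2)) ≤ 1 / 2 := by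
  have h1 : Tendsto (fun x : ℝ => 4 * K * (x ^ (0 : ℝ) * Real.exp (-(1 / 2) * x)) +
      36 * (x ^ (1 / b) * Real.exp (-(1 / 2) * x))) atTop (𝓝 (4 * K * 0 + 36 * 0)) :=
    ((tendsto_rpow_mul_exp_neg_mul_atTop_nhds_zero 0 (1 / 2) (by norm_num)).const_mul _).add
      ((tendsto_rpow_mul_exp_neg_mul_atTop_nhds_zero (1 / b) (1 / 2) (by norm_num)).const_mul _)
  rw [show 4 * K * 0 + 36 * 0 = (0 : ℝ) by ring] at h1
  have h2 := (tendsto_rpow_atTop hb).eventually
    (h1.eventually (gt_mem_nhds (by norm_num : (0 : ℝ) < 1 / 2)))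
  filter_upwards [h2, Filter.eventually_ge_atTop 0] with L hL hL0
  rw [Real.rpow_zero, ← Real.rpow_mul hL0, mul_one_div_cancel hb.ne', Real.rpow_one] at hL
  have e : Real.exp (-(L ^ b / 2)) = Real.exp (-(1 / 2) * L ^ b) := by
    congr 1; ring
  rw [e]
  refine le_trans (le_of_eq ?_) hL.le
  ring

theorem ev_quad {K δ : ℝ} (hK : 0 ≤ K) (hδ : 0 < δ) :
    ∀ᶠ T : ℝ in atTop, K * Real.sqrt (LL T) + K ≤ δ * LL T := by
  have h1 : Tendsto (fun T => Real.sqrt (LL T)) atTop atTop := by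
    refine (tendsto_rpow_atTop (y := 1 / 2) (by norm_num)).comp tLL |>.congr fun T => ?_
    rw [Function.comp_apply, Real.sqrt_eq_rpow]
  filter_upwards [h1.eventually_ge_atTop 1, h1.eventually_ge_atTop (2 * K / δ),
    tLL.eventually_ge_atTop 0] with T h2 h3 h4
  have h5 := Real.mul_self_sqrt h4
  set r := Real.sqrt (LL T)
  rw [div_le_iff₀ hδ] at h3
  rw [← h5]
  nlinarith

theorem ev_log {K b : ℝ} (hb : 0 < b) : ∀ᶠ T : ℝ in atTop, K * LL T < Real.log T ^ b := by
  have h1 := isLittleO_log_rpow_atTop hb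
  have h2 : ∀ᶠ L : ℝ in atTop, K * Real.log L < L ^ b := by
    have h3 := h1.bound (c := 1 / (2 * (|K| + 1))) (by positivity)
    filter_upwards [h3, Filter.eventually_ge_atTop 1] with L h4 hL
    have hl : 0 ≤ Real.log L := Real.log_nonneg hL
    have hLb : 0 < L ^ b := by positivity
    rw [Real.norm_of_nonneg hl, Real.norm_of_nonneg hLb.le] at h4
    have h5 : (|K| + 1) * Real.log L ≤ L ^ b / 2 := by
      calc (|K| + 1) * Real.log L ≤ (|K| + 1) * (1 / (2 * (|K| + 1)) * L ^ b) := by gcongr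
        _ = _ := by field_simp
    have h6 : K * Real.log L ≤ (|K| + 1) * Real.log L := by
      gcongr
      linarith [le_abs_self K]
    linarith
  exact tL.eventually h2

theorem ev_pow (b : ℝ) : ∀ᶠ T : ℝ in atTop, 10 * Real.log T ≤ T / Real.log T ^ b := by
  have h1 : ∀ᶠ T : ℝ in atTop, 10 * (Real.log T ^ (1 + |b|)) ≤ T := by
    have h2 := isLittleO_log_rpow_rpow_atTop (1 + |b|) (by norm_num : (0 : ℝ) < 1)
    have h3 := h2.bound (c := 1 / 10) (by norm_num)
    filter_upwards [h3, Filter.eventually_ge_atTop 1, tL.eventually_ge_atTop 0] with T h4 hT hL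
    rw [Real.rpow_one, Real.norm_of_nonneg (by positivity), Real.norm_of_nonneg (by linarith)] at h4
    linarith
  filter_upwards [h1, tL.eventually_ge_atTop 1] with T h2 hL
  have hL0 : 0 < Real.log T := by linarith
  rw [le_div_iff₀ (by positivity)]
  have h3 : Real.log T ^ b ≤ Real.log T ^ |b| :=
    Real.rpow_le_rpow_of_exponent_le hL (le_abs_self b)
  calc 10 * Real.log T * Real.log T ^ b ≤ 10 * Real.log T * Real.log T ^ |b| := by gcongr
    _ = 10 * Real.log T ^ (1 + |b|) := by rw [Real.rpow_add hL0, Real.rpow_one]; ring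
    _ ≤ T := h2

theorem pt0 (t : ℝ) : pt 0 t = 1 / 2 + t * I := by simp [pt]

theorem V_cmp {κ p p' v v' : ℝ} (h1 : v ≤ 9 / 4 * Real.exp (2 * κ * p))
    (h2 : 1 / 4 * Real.exp (2 * κ * p') ≤ v') (hd : |p - p'| ≤ 2) :
    v ≤ 9 * Real.exp (4 * |κ|) * v' := by
  have h3 : 2 * κ * p ≤ 4 * |κ| + 2 * κ * p' := by
    have h4 : κ * (p - p') ≤ |κ| * 2 := by
      calc κ * (p - p') ≤ |κ * (p - p')| := le_abs_self _
        _ = |κ| * |p - p'| := abs_mul _ _
        _ ≤ |κ| * 2 := by gcongr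
    linarith
  have h5 : Real.exp (2 * κ * p) ≤ Real.exp (4 * |κ|) * Real.exp (2 * κ * p') := by
    rw [← Real.exp_add]
    exact Real.exp_le_exp.2 h3
  have h6 := Real.exp_pos (4 * |κ|)
  calc v ≤ 9 / 4 * Real.exp (2 * κ * p) := h1
    _ ≤ 9 / 4 * (Real.exp (4 * |κ|) * Real.exp (2 * κ * p')) := by gcongr
    _ = 9 * Real.exp (4 * |κ|) * (1 / 4 * Real.exp (2 * κ * p')) := by ring
    _ ≤ _ := by gcongr

theorem aux1 {x T : ℝ} (hx : x ≤ 2 * T) (hT : 100 ≤ T) : 1 + x ≤ T ^ 2 := by nlinarith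

theorem aux2 {k d : ℝ} (hk : k ≤ 2) (hd : d ≤ 1 / 8) (hd0 : 0 < d) : k * d < 1 / 2 := by nlinarith

theorem aux3 {k d : ℝ} (hk : 1 ≤ k) (hd0 : 0 < d) : d ≤ k * d := by nlinarith

theorem aux4 {C r ℓ η δ : ℝ} (hC : 0 < C) (hr : 0 ≤ r) (hℓ : 0 ≤ ℓ) (h1 : C ^ 2 * η ≤ δ ^ 2 / 4)
    (h2 : (32 * C + 4 * C ^ 2) * r + (32 * C + 4 * C ^ 2) ≤ δ ^ 2 / 4 * ℓ) :
    2 * C * (2 * (4 * r) + 8) + C ^ 2 * (η * ℓ + 2 + 4 * r) ≤ δ ^ 2 / 2 * ℓ := by
  have h3 : C ^ 2 * η * ℓ ≤ δ ^ 2 / 4 * ℓ := by gcongr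
  have h4 : 0 ≤ C * r := by positivity
  have h5 : 0 ≤ C ^ 2 := sq_nonneg C
  have e : 2 * C * (2 * (4 * r) + 8) + C ^ 2 * (η * ℓ + 2 + 4 * r) =
      C ^ 2 * η * ℓ + ((32 * C + 4 * C ^ 2) * r + (32 * C + 4 * C ^ 2)) -
        (16 * (C * r) + 16 * C + 2 * C ^ 2) := by ring
  rw [e]
  linarith

/-- LOW at one height -/
theorem lowT {κ δ Cκ η c A A2 D C0 T K9 : ℝ} (hcore : CoreP C0) (hδ : 0 < δ)
    (hCκ : Cκ = 9 * Real.exp (4 * |κ|)) (hη0 : 0 < η) (hη2 : η ≤ δ / 2)
    (hη3 : Cκ ^ 2 * η ≤ δ ^ 2 / 4) (hC0 : 0 ≤ C0) (hc0 : 0 < c) (hc1 : c < 1) (_hA2 : 0 < A2)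
    (_hD0 : 0 < D) (hK9 : K9 = 32 * Cκ + 4 * Cκ ^ 2)
    (hPW1 : ∀ z : ℂ, ‖z‖ ≤ A2 * LL T →
      ‖tex (KA A T) ((κ : ℂ) * z) - cexp ((κ : ℂ) * z)‖ ≤ 1 / 2 * Real.exp (κ * z.re))
    (hPW2 : ∀ z : ℂ, ‖z‖ ≤ A2 * LL T →
      ‖tex (KA A T) (((κ - 1 : ℝ) : ℂ) * z) - cexp (((κ - 1 : ℝ) : ℂ) * z)‖ ≤
        1 / 2 * Real.exp ((κ - 1) * z.re))
    (hG2T : MeasurableSet (G2 A2 c ((1 - c) / 2) T) ∧
      volume.real (Set.Icc T (2 * T) \ G2 A2 c ((1 - c) / 2) T) ≤ T / Real.log T ^ (2 * κ ^ 2 + 2))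
    (hG1aT : MeasurableSet (G1 2 D T) ∧
      volume.real (Set.Icc T (2 * T) \ G1 2 D T) ≤ T / Real.log T ^ (2 * κ ^ 2 + 2))
    (hZLT : ∀ k : ℝ, 1 ≤ k → k ≤ 2 →
      ∫ t in G1 1 D T ∩ Icc (T + 4 * Real.log T) (2 * T - 4 * Real.log T), V κ c A T t *
        (Real.log ‖riemannZeta (1 / 2 + (k * Real.log T ^ ((1 - c) / 4 - 1) : ℝ) + t * I)‖ -
          (Pc c T t).re) ^ 2 ≤ (2 * (1 - c) + 1) * LL T * IV κ c A T)
    (hmsT : ∀ X : Set ℝ, X ⊆ Icc T (2 * T) → MeasurableSet X →
      volume.real X ≤ 3 * (T / Real.log T ^ (2 * κ ^ 2 + 2)) →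
      ∫ t in X, V κ c A T t ≤ δ / 4 * IV κ c A T)
    (hwmT : 9 * (∫ t in T..(2 * T), V (κ - 1) c A T t * ‖riemannZeta (1 / 2 + t * I)‖ ^ 2) ≤
      Real.log T ^ (3 * η / 4) * IV κ c A T)
    (hL : 100 ≤ Real.log T) (hℓ : 1 ≤ LL T) (hT : 100 ≤ T)
    (hr1 : Real.log T ^ (-(1 - (1 - c) / 4)) < 1 / 8) (hr2 : 3 ≤ Real.log T ^ ((1 - c) / 6))
    (hr3 : Real.log T ^ (-δ) < δ / 4) (hlog1 : (A2 + δ) * LL T < Real.log T ^ (1 : ℝ))
    (hlog2 : D * LL T < Real.log T ^ ((1 - c) / 4))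
    (htail : 4 * (C0 + 16 + 9 * Real.log T) * Real.exp (-(Real.log T ^ ((1 - c) / 12) / 2)) ≤ 1 / 2)
    (hquad : K9 * Real.sqrt (LL T) + K9 ≤ δ ^ 2 / 4 * LL T)
    (hpow : 10 * Real.log T ≤ T / Real.log T ^ (2 * κ ^ 2 + 2)) :
    ∃ E : Set ℝ, MeasurableSet E ∧ E ⊆ Set.Icc T (2 * T) ∧
      (∫ t in E, V κ c A T t) ≤ δ * IV κ c A T ∧
      ∀ t ∈ Set.Icc T (2 * T), t ∉ E →
        |Real.log ‖riemannZeta (1 / 2 + t * I)‖ - (Pc c T t).re| ≤ δ * LL T := by
  have hCκ0 : 0 < Cκ := by rw [hCκ]; positivity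
  have hL0 : 0 < Real.log T := by linarith
  have hT0 : 0 < T := by linarith
  set L := Real.log T with hLdef
  set ℓ := LL T with hℓdef
  have hℓ0 : 0 < ℓ := by linarith
  rw [Real.rpow_one] at hlog1
  set d := L ^ ((1 - c) / 4 - 1) with hd
  set w := L ^ ((1 - c) / 3 - 1) with hw
  have hd0 : 0 < d := by positivity
  have hw0 : 0 < w := by positivity
  have hd8 : d ≤ 1 / 8 := by
    rw [hd, show (1 - c) / 4 - 1 = -(1 - (1 - c) / 4) by ring]
    exact hr1.le
  have h3w : 3 * w ≤ L ^ ((1 - c) / 2 - 1) := by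
    have e : L ^ ((1 - c) / 2 - 1) = L ^ ((1 - c) / 6) * w := by
      rw [hw, ← Real.rpow_add hL0]
      congr 1
      ring
    rw [e]
    gcongr
  have hw1 : 3 * w ≤ 1 :=
    h3w.trans (Real.rpow_le_one_of_one_le_of_nonpos (by linarith) (by linarith))
  have hwd : w / (2 * d) = L ^ ((1 - c) / 12) / 2 := by
    have e : w = L ^ ((1 - c) / 12) * d := by
      rw [hw, hd, ← Real.rpow_add hL0]
      congr 1
      ring
    rw [e]
    field_simp
  have hDd : D * ℓ / L < d := by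
    have e : d = L ^ ((1 - c) / 4) / L := by
      rw [hd, Real.rpow_sub hL0, Real.rpow_one]
    rw [e]
    gcongr
  have hI0 : 0 ≤ IV κ c A T := by
    unfold IV
    exact intervalIntegral.integral_nonneg (by linarith) fun t _ => V_nonneg _ _ _ _ _
  have hIeq : IV κ c A T = ∫ t in Icc T (2 * T), V κ c A T t := by
    unfold IV
    rw [intervalIntegral.integral_of_le (by linarith), ← integral_Icc_eq_integral_Ioc]
  set p : ℝ → ℝ := fun t => (Pc c T t).re with hpdef
  have hp : Continuous p := Complex.continuous_re.comp (Pc_cont c T)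
  set G0 : Set ℝ := (G1 2 D T ∩ G2 A2 c ((1 - c) / 2) T) ∩ Icc (T + 5 * L) (2 * T - 5 * L) with hG0
  have hG0m : MeasurableSet G0 := (hG1aT.1.inter hG2T.1).inter measurableSet_Icc
  have near : ∀ t ∈ G0, ∀ x : ℝ, |x - t| ≤ 3 * w → ‖Pc c T x‖ ≤ A2 * ℓ ∧
      ‖Pc c T x - Pc c T t‖ ≤ 1 ∧ x ∈ G1 1 D T ∩ Icc (T + 4 * L) (2 * T - 4 * L) := by
    intro t ht x hx
    have h1 := ht.1.2 (x - t) (hx.trans h3w)
    rw [add_sub_cancel] at h1
    have h2 := abs_le.1 hx
    have h3 := ht.2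
    refine ⟨h1.1, h1.2, ?_, ?_, ?_⟩
    · intro s hs1 hs2 hs3 hs4
      refine ht.1.1 s hs1 hs2 hs3 ?_
      have h4 := abs_add_le (s.im - x) (x - t)
      rw [show s.im - x + (x - t) = s.im - t by ring] at h4
      linarith
    · linarith [h3.1]
    · linarith [h3.2]
  set H := Metric.thickening (3 * w) G0 with hH
  have hHm : MeasurableSet H := Metric.isOpen_thickening.measurableSet
  have hHt : ∀ x ∈ H, ∃ t ∈ G0, |x - t| ≤ 3 * w := by
    intro x hx
    rw [hH, Metric.mem_thickening_iff] at hx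
    obtain ⟨t, ht, h1⟩ := hx
    rw [Real.dist_eq] at h1
    exact ⟨t, ht, h1.le⟩
  have hG0H : G0 ⊆ H := Metric.self_subset_thickening (by linarith) _
  set S := G1 1 D T ∩ Icc (T + 4 * L) (2 * T - 4 * L) with hS
  have hHS : H ⊆ S := by
    intro x hx
    obtain ⟨t, ht, h1⟩ := hHt x hx
    exact (near t ht x h1).2.2
  have hHP : ∀ x ∈ H, ‖Pc c T x‖ ≤ A2 * ℓ := by
    intro x hx
    obtain ⟨t, ht, h1⟩ := hHt x hx
    exact (near t ht x h1).1
  have hpabs : ∀ x ∈ H, |p x| ≤ A2 * ℓ := fun x hx => (Complex.abs_re_le_norm _).trans (hHP x hx)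
  have hδℓ : 0 < δ * ℓ := by positivity
  have hA2L : A2 * ℓ + δ * ℓ ≤ L := by linarith
  have hHH : ∀ x ∈ H, 4 ≤ x ∧ -L ≤ p x ∧ riemannZeta (pt d x) ≠ 0 ∧
      riemannZeta (pt (2 * d) x) ≠ 0 ∧
      4 * (C0 + 4 * Real.log (1 + |x|) + |p x| + 16 * d) * Real.exp (-(w / (2 * d))) ≤ 1 := by
    intro x hx
    have h1 := hHS hx
    have h2 := hpabs x hx
    have h3 := abs_le.1 h2
    have hx1 : T ≤ x := by linarith [h1.2.1]
    have hx2 : x ≤ 2 * T := by linarith [h1.2.2]
    refine ⟨by linarith, by linarith, ?_, ?_, ?_⟩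
    · exact nz_of_closure (r := 1) (by linarith) hd0 (by linarith) hDd (subset_closure h1)
    · exact nz_of_closure (r := 1) (by linarith) (by linarith) (by linarith) (by linarith)
        (subset_closure h1)
    · rw [hwd]
      have h4 : Real.log (1 + |x|) ≤ 2 * L := by
        rw [hLdef, ← Real.log_rpow hT0]
        apply Real.log_le_log (by positivity)
        rw [Real.rpow_two, abs_of_pos (by linarith)]
        exact aux1 hx2 hT
      have h5 : C0 + 4 * Real.log (1 + |x|) + |p x| + 16 * d ≤ C0 + 16 + 9 * L := by linarith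
      calc 4 * (C0 + 4 * Real.log (1 + |x|) + |p x| + 16 * d) * Real.exp (-(L ^ ((1 - c) / 12) / 2))
          ≤ 4 * (C0 + 16 + 9 * L) * Real.exp (-(L ^ ((1 - c) / 12) / 2)) := by gcongr
        _ ≤ 1 := htail.trans (by norm_num)
  have htail2 : 4 * (1 + 16 * d) * Real.exp (-(w / (2 * d))) ≤ 1 / 2 := by
    rw [hwd]
    refine le_trans (mul_le_mul_of_nonneg_right ?_ (Real.exp_pos _).le) htail
    linarith
  have hVlo : ∀ x ∈ H, 1 / 4 * Real.exp (2 * κ * p x) ≤ V κ c A T x ∧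
      V κ c A T x ≤ 9 / 4 * Real.exp (2 * κ * p x) := fun x hx => V_bd (hPW1 _ (hHP x hx))
  have hcmp : ∀ x ∈ Metric.thickening (2 * w) G0, ∀ y ∈ Icc (-w) w, |p (x + y) - p x| ≤ 2 ∧
      V κ c A T x ≤ Cκ * V κ c A T (x + y) ∧ V κ c A T (x + y) ≤ Cκ * V κ c A T x := by
    intro x hx y hy
    rw [Metric.mem_thickening_iff] at hx
    obtain ⟨t, ht, h1⟩ := hx
    rw [Real.dist_eq] at h1
    have hy' := abs_le.2 hy
    have h2 : |x + y - t| < 3 * w := by
      have := abs_add_le (x - t) y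
      rw [show x - t + y = x + y - t by ring] at this
      linarith
    have h3 := near t ht x (by linarith)
    have h4 := near t ht (x + y) h2.le
    have hxH : x ∈ H := by
      rw [hH, Metric.mem_thickening_iff]
      exact ⟨t, ht, by rw [Real.dist_eq]; linarith⟩
    have hxyH : x + y ∈ H := by
      rw [hH, Metric.mem_thickening_iff]
      exact ⟨t, ht, by rw [Real.dist_eq]; exact h2⟩
    have h5 : |p (x + y) - p x| ≤ 2 := by
      have h6 : p (x + y) - p x = (Pc c T (x + y) - Pc c T x).re := by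
        simp only [hpdef, Complex.sub_re]
      rw [h6]
      refine (Complex.abs_re_le_norm _).trans ?_
      have h7 := norm_sub_le (Pc c T (x + y) - Pc c T t) (Pc c T x - Pc c T t)
      rw [show Pc c T (x + y) - Pc c T t - (Pc c T x - Pc c T t) = Pc c T (x + y) - Pc c T x by
        ring] at h7
      linarith [h3.2.1, h4.2.1]
    rw [hCκ]
    refine ⟨h5, ?_, ?_⟩
    · exact V_cmp (hVlo x hxH).2 (hVlo _ hxyH).1 (by rw [abs_sub_comm]; exact h5)
    · exact V_cmp (hVlo _ hxyH).2 (hVlo x hxH).1 h5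
  have hSub : H ⊆ Icc T (2 * T) := by
    intro x hx
    have := (hHS hx).2
    exact ⟨by linarith [this.1], by linarith [this.2]⟩
  have hVc := V_cont κ c A T
  have hVint : IntegrableOn (fun t => V κ c A T t) (Icc T (2 * T)) :=
    hVc.continuousOn.integrableOn_compact isCompact_Icc
  have hmV : ∫⁻ x in H, ENNReal.ofReal (V κ c A T x) ≤ ENNReal.ofReal (IV κ c A T) := by
    rw [hIeq, ofReal_integral_eq_lintegral_ofReal hVint
      (Filter.Eventually.of_forall fun t => V_nonneg _ _ _ _ _)]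
    exact lintegral_mono_set hSub
  have hq : ∀ k : ℝ, 1 ≤ k → k ≤ 2 → ∫⁻ x in H, ENNReal.ofReal (V κ c A T x *
      |Real.log ‖riemannZeta (pt (k * d) x)‖ - p x|) ≤
      ENNReal.ofReal (4 * Real.sqrt ℓ * IV κ c A T) := by
    intro k hk1 hk2
    refine q_bound hHS hHm (fun t => V_nonneg _ _ _ _ _) hVc.measurable ?_ hℓ0 hI0 hmV ?_
    · exact zl_int hL0 (by positivity) (aux2 hk2 hd8 hd0) (hDd.trans_le (aux3 hk1 hd0))
        (by linarith) hVc hp
    · refine (hZLT k hk1 hk2).trans ?_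
      have h1 : 2 * (1 - c) + 1 ≤ 3 := by linarith
      gcongr
  have hm1 := hq 1 le_rfl one_le_two
  rw [one_mul] at hm1
  have hm2 := hq 2 one_le_two le_rfl
  -- the second moment of zeta
  have hmW : ∫⁻ x in H, ENNReal.ofReal (V κ c A T x *
      (‖riemannZeta (pt 0 x)‖ ^ 2 * Real.exp (-2 * p x))) ≤
      ENNReal.ofReal (L ^ (3 * η / 4) * IV κ c A T) := by
    have hint : IntegrableOn (fun t => V (κ - 1) c A T t * ‖riemannZeta (1 / 2 + t * I)‖ ^ 2)
        (Icc T (2 * T)) := by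
      refine ContinuousOn.integrableOn_compact isCompact_Icc
        ((V_cont (κ - 1) c A T).continuousOn.mul (ContinuousOn.pow (ContinuousOn.norm ?_) 2))
      intro t ht
      have h3 : (1 / 2 + t * I : ℂ) ≠ 1 := by
        rw [← pt0]
        exact pt_ne_one (by linarith [ht.1])
      have h4 : ContinuousAt (fun t : ℝ => (1 / 2 + t * I : ℂ)) t := by fun_prop
      exact ((differentiableAt_riemannZeta h3).continuousAt.comp
        (f := fun t : ℝ => (1 / 2 + t * I : ℂ)) h4).continuousWithinAt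
    calc ∫⁻ x in H, ENNReal.ofReal (V κ c A T x *
          (‖riemannZeta (pt 0 x)‖ ^ 2 * Real.exp (-2 * p x)))
        ≤ ∫⁻ x in H, ENNReal.ofReal (9 * (V (κ - 1) c A T x *
            ‖riemannZeta (1 / 2 + x * I)‖ ^ 2)) := by
          refine setLIntegral_mono' hHm fun x hx => ?_
          apply ENNReal.ofReal_le_ofReal
          have h1 := (hVlo x hx).2
          have h2 := (V_bd (hPW2 _ (hHP x hx))).1
          rw [pt0]
          have h3 : V κ c A T x * Real.exp (-2 * p x) ≤ 9 * V (κ - 1) c A T x := by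
            have e : Real.exp (2 * κ * p x) * Real.exp (-2 * p x) =
                Real.exp (2 * (κ - 1) * (Pc c T x).re) := by
              rw [← Real.exp_add]
              congr 1
              simp only [hpdef]
              ring
            calc V κ c A T x * Real.exp (-2 * p x) ≤
                9 / 4 * Real.exp (2 * κ * p x) * Real.exp (-2 * p x) := by gcongr
              _ = 9 * (1 / 4 * Real.exp (2 * (κ - 1) * (Pc c T x).re)) := by rw [← e]; ring
              _ ≤ _ := by gcongr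
          calc V κ c A T x * (‖riemannZeta (1 / 2 + x * I)‖ ^ 2 * Real.exp (-2 * p x)) =
              (V κ c A T x * Real.exp (-2 * p x)) * ‖riemannZeta (1 / 2 + x * I)‖ ^ 2 := by ring
            _ ≤ (9 * V (κ - 1) c A T x) * ‖riemannZeta (1 / 2 + x * I)‖ ^ 2 := by gcongr
            _ = _ := by ring
      _ ≤ ∫⁻ x in Icc T (2 * T), ENNReal.ofReal (9 * (V (κ - 1) c A T x *
            ‖riemannZeta (1 / 2 + x * I)‖ ^ 2)) := lintegral_mono_set hSub
      _ = ENNReal.ofReal (∫ x in Icc T (2 * T), 9 * (V (κ - 1) c A T x *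
            ‖riemannZeta (1 / 2 + x * I)‖ ^ 2)) := by
          rw [ofReal_integral_eq_lintegral_ofReal (hint.const_mul 9)
            (Filter.Eventually.of_forall fun t => by
              have := V_nonneg (κ - 1) c A T t
              positivity)]
      _ ≤ _ := by
          apply ENNReal.ofReal_le_ofReal
          rw [integral_const_mul, integral_Icc_eq_integral_Ioc,
            ← intervalIntegral.integral_of_le (by linarith)]
          exact hwmT
  have haW : Real.exp (-(η * ℓ)) * L ^ (3 * η / 4) ≤ 1 := by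
    have e : Real.exp (-(η * ℓ)) = L ^ (-η) := by
      rw [← exp_LL hL0]
      congr 1
      ring
    rw [e, ← Real.rpow_add hL0]
    exact Real.rpow_le_one_of_one_le_of_nonpos (by linarith) (by linarith)
  have hres := hcore (fun t => V κ c A T t) p G0 L d w Cκ (η * ℓ) (4 * Real.sqrt ℓ)
    (L ^ (3 * η / 4)) (IV κ c A T) hVc (fun t => V_nonneg _ _ _ _ _) hp hG0m hL0.le hd0
    (by linarith) hw0 hCκ0.le (by positivity) (by positivity) (by positivity) hI0 hHH htail2 hcmp
    hmV hm1 hm2 hmW haW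
  have hnum : (2 * Cκ * (2 * (4 * Real.sqrt ℓ) + 8) + Cκ ^ 2 * (η * ℓ + 2 + 4 * Real.sqrt ℓ)) ≤
      δ ^ 2 / 2 * ℓ := by
    rw [hK9] at hquad
    exact aux4 hCκ0 (Real.sqrt_nonneg ℓ) hℓ0.le hη3 hquad
  -- the exceptional sets
  have mz : Measurable (fun x => riemannZeta (pt 0 x)) := by
    have h1 : Measurable riemannZeta := by
      have h2 : ContinuousOn riemannZeta {1}ᶜ := fun s hs =>
        (differentiableAt_riemannZeta hs).continuousAt.continuousWithinAt
      exact measurable_of_continuousOn_compl_singleton 1 h2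
    exact h1.comp (by unfold pt; fun_prop)
  have mgN : Measurable (fun x => gN L 0 x) := gN_meas_comp L measurable_const measurable_id
  set E1 : Set ℝ := Icc T (2 * T) \ G0 with hE1
  set E2 : Set ℝ := G0 ∩ {t | Real.exp (2 * (δ * ℓ)) ≤ ‖riemannZeta (pt 0 t)‖ ^ 2 *
    Real.exp (-2 * p t)} with hE2
  set E3 : Set ℝ := G0 ∩ {t | δ * ℓ ≤ max (p t - gN L 0 t) 0} with hE3
  have mE1 : MeasurableSet E1 := measurableSet_Icc.diff hG0m
  have mE2 : MeasurableSet E2 := by
    refine hG0m.inter (measurableSet_le measurable_const ?_)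
    exact (mz.norm.pow_const 2).mul (Real.measurable_exp.comp (hp.measurable.const_mul _))
  have mE3 : MeasurableSet E3 := by
    refine hG0m.inter (measurableSet_le measurable_const ?_)
    exact (hp.measurable.sub mgN).max measurable_const
  have hG0Icc : G0 ⊆ Icc T (2 * T) := hG0H.trans hSub
  refine ⟨E1 ∪ (E2 ∪ E3), mE1.union (mE2.union mE3), ?_, ?_, ?_⟩
  · refine union_subset sdiff_subset (union_subset ?_ ?_)
    · exact inter_subset_left.trans hG0Icc
    · exact inter_subset_left.trans hG0Icc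
  · -- masses
    have hn : ∀ t, 0 ≤ V κ c A T t := fun t => V_nonneg _ _ _ _ _
    have hsub : E1 ∪ (E2 ∪ E3) ⊆ Icc T (2 * T) := by
      refine union_subset sdiff_subset (union_subset ?_ ?_)
      · exact inter_subset_left.trans hG0Icc
      · exact inter_subset_left.trans hG0Icc
    have M1 : ∫⁻ t in E1, ENNReal.ofReal (V κ c A T t) ≤ ENNReal.ofReal (δ / 4 * IV κ c A T) := by
      rw [← ofReal_integral_eq_lintegral_ofReal (hVint.mono_set sdiff_subset)
        (Filter.Eventually.of_forall hn)]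
      apply ENNReal.ofReal_le_ofReal
      refine hmsT E1 sdiff_subset mE1 ?_
      have hcov : E1 ⊆ (Icc T (2 * T) \ G1 2 D T) ∪ (Icc T (2 * T) \ G2 A2 c ((1 - c) / 2) T) ∪
          (Icc T (T + 5 * L) ∪ Icc (2 * T - 5 * L) (2 * T)) := by
        intro t ht
        obtain ⟨h1, h2⟩ := ht
        by_cases g1 : t ∈ G1 2 D T
        · by_cases g2 : t ∈ G2 A2 c ((1 - c) / 2) T
          · right
            have h3 : t ∉ Icc (T + 5 * L) (2 * T - 5 * L) := fun h => h2 ⟨⟨g1, g2⟩, h⟩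
            by_cases h4 : T + 5 * L ≤ t
            · right
              refine ⟨?_, h1.2⟩
              by_contra h5
              push Not at h5
              exact h3 ⟨h4, h5.le⟩
            · left
              exact ⟨h1.1, by linarith⟩
          · left; right
            exact ⟨h1, g2⟩
        · left; left
          exact ⟨h1, g1⟩
      have f1 : volume (Icc T (2 * T)) ≠ ⊤ := by rw [Real.volume_Icc]; exact ENNReal.ofReal_ne_top
      have f2 : volume (Icc T (2 * T) \ G1 2 D T) ≠ ⊤ :=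
        ((measure_mono sdiff_subset).trans_lt (lt_top_iff_ne_top.2 f1)).ne
      have f3 : volume (Icc T (2 * T) \ G2 A2 c ((1 - c) / 2) T) ≠ ⊤ :=
        ((measure_mono sdiff_subset).trans_lt (lt_top_iff_ne_top.2 f1)).ne
      have f4 : volume (Icc T (T + 5 * L)) ≠ ⊤ := by
        rw [Real.volume_Icc]; exact ENNReal.ofReal_ne_top
      have f5 : volume (Icc (2 * T - 5 * L) (2 * T)) ≠ ⊤ := by
        rw [Real.volume_Icc]; exact ENNReal.ofReal_ne_top
      have v4 : volume.real (Icc T (T + 5 * L)) = 5 * L := by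
        rw [Real.volume_real_Icc_of_le (by linarith)]; ring
      have v5 : volume.real (Icc (2 * T - 5 * L) (2 * T)) = 5 * L := by
        rw [Real.volume_real_Icc_of_le (by linarith)]; ring
      calc volume.real E1 ≤ volume.real ((Icc T (2 * T) \ G1 2 D T) ∪
            (Icc T (2 * T) \ G2 A2 c ((1 - c) / 2) T) ∪
            (Icc T (T + 5 * L) ∪ Icc (2 * T - 5 * L) (2 * T))) :=
            measureReal_mono hcov (measure_union_ne_top (measure_union_ne_top f2 f3)
              (measure_union_ne_top f4 f5))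
        _ ≤ (volume.real (Icc T (2 * T) \ G1 2 D T) +
            volume.real (Icc T (2 * T) \ G2 A2 c ((1 - c) / 2) T)) +
            (volume.real (Icc T (T + 5 * L)) + volume.real (Icc (2 * T - 5 * L) (2 * T))) := by
            refine (measureReal_union_le _ _).trans (add_le_add (measureReal_union_le _ _)
              (measureReal_union_le _ _))
        _ ≤ 3 * (T / L ^ (2 * κ ^ 2 + 2)) := by
            rw [v4, v5]
            linarith [hG1aT.2, hG2T.2]
    have M2 : ∫⁻ t in E2, ENNReal.ofReal (V κ c A T t) ≤ ENNReal.ofReal (δ / 4 * IV κ c A T) := by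
      calc ∫⁻ t in E2, ENNReal.ofReal (V κ c A T t)
          ≤ ∫⁻ t in E2, ENNReal.ofReal (Real.exp (-(2 * (δ * ℓ)))) * ENNReal.ofReal (V κ c A T t *
              (‖riemannZeta (pt 0 t)‖ ^ 2 * Real.exp (-2 * p t))) := by
            refine setLIntegral_mono' mE2 fun t ht => ?_
            rw [← ENNReal.ofReal_mul (Real.exp_pos _).le]
            apply ENNReal.ofReal_le_ofReal
            have h1 := ht.2
            simp only [Set.mem_ofPred_eq] at h1
            have h2 := hn t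
            have h3 : Real.exp (-(2 * (δ * ℓ))) * Real.exp (2 * (δ * ℓ)) = 1 := by
              rw [← Real.exp_add, neg_add_cancel, Real.exp_zero]
            calc V κ c A T t = V κ c A T t * (Real.exp (-(2 * (δ * ℓ))) * Real.exp (2 * (δ * ℓ))) := by
                  rw [h3, mul_one]
              _ ≤ V κ c A T t * (Real.exp (-(2 * (δ * ℓ))) *
                  (‖riemannZeta (pt 0 t)‖ ^ 2 * Real.exp (-2 * p t))) := by gcongr
              _ = _ := by ring
        _ = ENNReal.ofReal (Real.exp (-(2 * (δ * ℓ)))) * ∫⁻ t in E2, ENNReal.ofReal (V κ c A T t *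
              (‖riemannZeta (pt 0 t)‖ ^ 2 * Real.exp (-2 * p t))) :=
            lintegral_const_mul' _ _ (by finiteness)
        _ ≤ ENNReal.ofReal (Real.exp (-(2 * (δ * ℓ)))) *
              ENNReal.ofReal (L ^ (3 * η / 4) * IV κ c A T) := by
            gcongr
            exact (lintegral_mono_set (inter_subset_left.trans hG0H)).trans hmW
        _ ≤ _ := by
            rw [← ENNReal.ofReal_mul (Real.exp_pos _).le]
            apply ENNReal.ofReal_le_ofReal
            have e : Real.exp (-(2 * (δ * ℓ))) = L ^ (-(2 * δ)) := by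
              rw [← exp_LL hL0]
              congr 1
              ring
            have h4 : L ^ (-(2 * δ)) * L ^ (3 * η / 4) ≤ δ / 4 := by
              rw [← Real.rpow_add hL0]
              refine (Real.rpow_le_rpow_of_exponent_le (by linarith) ?_).trans hr3.le
              linarith
            rw [e, ← mul_assoc]
            gcongr
    have M3 : ∫⁻ t in E3, ENNReal.ofReal (V κ c A T t) ≤ ENNReal.ofReal (δ / 2 * IV κ c A T) := by
      calc ∫⁻ t in E3, ENNReal.ofReal (V κ c A T t)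
          ≤ ∫⁻ t in E3, ENNReal.ofReal (1 / (δ * ℓ)) * (ENNReal.ofReal (V κ c A T t) *
              ENNReal.ofReal (max (p t - gN L 0 t) 0)) := by
            refine setLIntegral_mono' mE3 fun t ht => ?_
            have h1 := ht.2
            simp only [Set.mem_ofPred_eq] at h1
            have h2 := hn t
            rw [← ENNReal.ofReal_mul h2, ← ENNReal.ofReal_mul (by positivity)]
            apply ENNReal.ofReal_le_ofReal
            calc V κ c A T t = 1 / (δ * ℓ) * (V κ c A T t * (δ * ℓ)) := by field_simp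
              _ ≤ _ := by gcongr
        _ = ENNReal.ofReal (1 / (δ * ℓ)) * ∫⁻ t in E3, (ENNReal.ofReal (V κ c A T t) *
              ENNReal.ofReal (max (p t - gN L 0 t) 0)) :=
            lintegral_const_mul' _ _ (by finiteness)
        _ ≤ ENNReal.ofReal (1 / (δ * ℓ)) * ENNReal.ofReal (δ ^ 2 / 2 * ℓ * IV κ c A T) := by
            gcongr
            refine (lintegral_mono_set inter_subset_left).trans (hres.trans ?_)
            apply ENNReal.ofReal_le_ofReal
            gcongr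
        _ = ENNReal.ofReal (δ / 2 * IV κ c A T) := by
            rw [← ENNReal.ofReal_mul (by positivity)]
            congr 1
            field_simp
    have key : ENNReal.ofReal (∫ t in E1 ∪ (E2 ∪ E3), V κ c A T t) ≤
        ENNReal.ofReal (δ * IV κ c A T) := by
      rw [ofReal_integral_eq_lintegral_ofReal (hVint.mono_set hsub)
        (Filter.Eventually.of_forall hn)]
      calc ∫⁻ t in E1 ∪ (E2 ∪ E3), ENNReal.ofReal (V κ c A T t)
          ≤ (∫⁻ t in E1, ENNReal.ofReal (V κ c A T t)) + ((∫⁻ t in E2, ENNReal.ofReal (V κ c A T t)) +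
              (∫⁻ t in E3, ENNReal.ofReal (V κ c A T t))) :=
            (lintegral_union_le _ _ _).trans (add_le_add le_rfl (lintegral_union_le _ _ _))
        _ ≤ ENNReal.ofReal (δ / 4 * IV κ c A T) + (ENNReal.ofReal (δ / 4 * IV κ c A T) +
              ENNReal.ofReal (δ / 2 * IV κ c A T)) := add_le_add M1 (add_le_add M2 M3)
        _ = _ := by
            rw [← ENNReal.ofReal_add (by positivity) (by positivity),
              ← ENNReal.ofReal_add (by positivity) (by positivity)]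
            congr 1
            ring
    exact (ENNReal.ofReal_le_ofReal_iff (by positivity)).1 key
  · intro t ht htE
    by_contra hcon
    push Not at hcon
    apply htE
    by_cases htG : t ∈ G0
    · right
      have h1 := abs_le.1 (hpabs t (hG0H htG))
      have h2 : (1 / 2 + t * I : ℂ) = pt 0 t := (pt0 t).symm
      rw [h2] at hcon
      rcases F3 (N := L) (x := t) (p := p t) (b := δ * ℓ) (by linarith [ht.1]) (by linarith)
        hcon with h3 | h3
      · right
        exact ⟨htG, h3⟩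
      · left
        exact ⟨htG, h3⟩
    · left
      exact ⟨ht, htG⟩

/-- LOW -/
theorem t_LOW (hVM1 : P_VM1) (_hVMT : P_VMT) (hPW : P_PW) (hG2M : P_G2M) (hG1M : P_G1M)
    (hZL2 : P_ZL2) (hZ3 : P_Z3) : P_LOW := by
  intro κ δ hδ
  set Cκ : ℝ := 9 * Real.exp (4 * |κ|) with hCκ
  have hCκ0 : 0 < Cκ := by positivity
  set η : ℝ := min 1 (min (δ / 2) (δ ^ 2 / (4 * Cκ ^ 2))) with hη
  have hη0 : 0 < η := lt_min one_pos (lt_min (by positivity) (by positivity))
  have hη1 : η ≤ 1 := min_le_left _ _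
  have hη2 : η ≤ δ / 2 := (min_le_right _ _).trans (min_le_left _ _)
  have hη3 : Cκ ^ 2 * η ≤ δ ^ 2 / 4 := by
    have h1 : η ≤ δ ^ 2 / (4 * Cκ ^ 2) := (min_le_right _ _).trans (min_le_right _ _)
    calc Cκ ^ 2 * η ≤ Cκ ^ 2 * (δ ^ 2 / (4 * Cκ ^ 2)) := by gcongr
      _ = δ ^ 2 / 4 := by field_simp
  refine ⟨1 - η / 4, by linarith, by linarith, fun c hc hc1 => ?_⟩
  have hc0 : 0 < c := by linarith
  obtain ⟨A2, hA2, hG2⟩ := hG2M c ((1 - c) / 2) (2 * κ ^ 2 + 2) hc0 hc1 (by linarith) (by linarith)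
    (by positivity)
  obtain ⟨Da, hDa, hG1a⟩ := hG1M 2 (2 * κ ^ 2 + 2) (by norm_num) (by positivity)
  obtain ⟨Db, hDb, hG1b⟩ := hG1M 1 1 one_pos one_pos
  set D := max Da Db with hD
  have hD0 : 0 < D := lt_of_lt_of_le hDa (le_max_left _ _)
  obtain ⟨a1, ha1⟩ := hVM1 κ c hc0 hc1
  obtain ⟨a2, ha2⟩ := hPW κ A2 hA2
  obtain ⟨a3, ha3⟩ := hPW (κ - 1) A2 hA2
  obtain ⟨a4, ha4⟩ := hZL2 κ c hc0 hc1
  obtain ⟨a5, ha5⟩ := hZ3 (κ - 1) c hc0 hc1
  refine ⟨max a1 (max a2 (max a3 (max a4 a5))), fun A hA => ?_⟩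
  simp only [max_le_iff] at hA
  obtain ⟨hA1, hA2', hA3, hA4, hA5⟩ := hA
  obtain ⟨C, hC, hVM⟩ := ha1 A hA1
  have hZL := ha4 A hA4 ((1 - c) / 4) D 1 (by linarith) (by linarith) hD0 one_pos
  have hZ := ha5 A hA5 (η / 4) (by positivity)
  obtain ⟨C0, hC0, hcore⟩ := coreL
  have hms := mass_small (κ := κ) (A := A) hc1 hC hVM (δ := δ / 4) (by positivity)
  have hwm := W_mass hC hη0 (by linarith) hVM hZ
  set K9 : ℝ := 32 * Cκ + 4 * Cκ ^ 2 with hK9
  have r1 : Tendsto (fun T : ℝ => Real.log T ^ (-(1 - (1 - c) / 4))) atTop (𝓝 0) :=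
    (tendsto_rpow_neg_atTop (by linarith)).comp tL
  have r2 : Tendsto (fun T : ℝ => Real.log T ^ ((1 - c) / 6)) atTop atTop :=
    (tendsto_rpow_atTop (by linarith)).comp tL
  have r3 : Tendsto (fun T : ℝ => Real.log T ^ (-δ)) atTop (𝓝 0) :=
    (tendsto_rpow_neg_atTop hδ).comp tL
  filter_upwards [hVM, ha2 A hA2', ha3 A hA3, hG2 A2 le_rfl, hG1a D (le_max_left _ _),
    hG1b D (le_max_right _ _), hZL, hms, hwm, tL.eventually_ge_atTop 100,
    tLL.eventually_ge_atTop 1, Filter.eventually_ge_atTop 100,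
    r1.eventually (gt_mem_nhds (by norm_num : (0 : ℝ) < 1 / 8)), r2.eventually_ge_atTop 3,
    r3.eventually (gt_mem_nhds (by positivity : (0 : ℝ) < δ / 4)),
    ev_log (K := A2 + δ) one_pos, ev_log (K := D) (b := (1 - c) / 4) (by linarith),
    tL.eventually (ev_tail (C0 + 16) ((1 - c) / 12) (by linarith)),
    ev_quad (K := K9) (δ := δ ^ 2 / 4) (by positivity) (by positivity),
    ev_pow (2 * κ ^ 2 + 2)] with T hVMT hPW1 hPW2 hG2T hG1aT hG1bT hZLT hmsT hwmT hL hℓ hT
    hr1 hr2 hr3 hlog1 hlog2 htail hquad hpow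
  exact lowT hcore hδ hCκ hη0 hη2 hη3 hC0 hc0 hc1 hA2 hD0 hK9 hPW1 hPW2 hG2T hG1aT (hZLT hG1bT.1)
    hmsT hwmT hL hℓ hT hr1 hr2 hr3 hlog1 hlog2 htail hquad hpow

end Pool.Agent.Y448.LD
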